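import Pool.Agent.Y665.NZ.NF

/-!
Infinitely many primes of residue degree one in a number field, and the primes below them.
-/

set_option autoImplicit false
set_option linter.all false

open Polynomial IsDedekindDomain NumberField

namespace Pool.Agent.Y164.NZ

/-- the values of a polynomial are divisible by infinitely many primes -/
theorem schur (f : ℤ[X]) (hf : 0 < f.natDegree) (S : Finset ℕ) (hS : ∀ p ∈ S, p.Prime) :
    ∃ p : ℕ, p.Prime ∧ p ∉ S ∧ ∃ a : ℤ, (p : ℤ) ∣ f.eval a := by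
  by_cases h0 : f.eval 0 = 0
  · obtain ⟨p, hp, hpS⟩ : ∃ p : ℕ, p.Prime ∧ p ∉ S := by
      obtain ⟨p, hp, hpp⟩ := Nat.exists_infinite_primes (S.sup id + 1)
      refine ⟨p, hpp, fun h => ?_⟩
      have := Finset.le_sup (f := id) h
      simp only [id] at this
      omega
    exact ⟨p, hp, hpS, 0, by rw [h0]; exact dvd_zero _⟩
  obtain ⟨c, hc⟩ : ∃ c : ℤ, c = f.eval 0 := ⟨_, rfl⟩
  obtain ⟨B, hB⟩ : ∃ B : ℤ, B = ((∏ p ∈ S, p : ℕ) : ℤ) := ⟨_, rfl⟩
  have hB0 : B ≠ 0 := by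
    rw [hB]
    exact_mod_cast (Finset.prod_ne_zero_iff.2 fun p hp => (hS p hp).ne_zero)
  have hc0 : c ≠ 0 := hc ▸ h0
  have hg : ∀ x : ℤ, f.eval x = c + x * (f.divX).eval x := by
    intro x
    conv_lhs => rw [← f.divX_mul_X_add]
    rw [eval_add, eval_mul, eval_X, eval_C, ← coeff_zero_eq_eval_zero] at *
    rw [hc, coeff_zero_eq_eval_zero]
    ring
  -- choose y
  obtain ⟨R, hR⟩ : ∃ R : ℤ[X], R = (f - C c) * (f + C c) * f := ⟨_, rfl⟩
  have hdC : ∀ e : ℤ, f + C e ≠ 0 := by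
    intro e h
    have h1 : f = C (-e) := by
      rw [C_neg]
      exact eq_neg_of_add_eq_zero_left h
    rw [h1, natDegree_C] at hf
    exact lt_irrefl _ hf
  have hR0 : R ≠ 0 := by
    rw [hR]
    refine mul_ne_zero (mul_ne_zero ?_ (hdC c)) ?_
    · have := hdC (-c)
      rwa [C_neg, ← sub_eq_add_neg] at this
    · have := hdC 0
      rwa [C_0, add_zero] at this
  obtain ⟨y, hy⟩ : ∃ y : ℤ, R.eval (c * B * y) ≠ 0 := by
    by_contra hcon
    push Not at hcon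
    have hinj : Function.Injective (fun y : ℤ => c * B * y) := fun a b h =>
      mul_left_cancel₀ (mul_ne_zero hc0 hB0) h
    have h1 : (Set.range (fun y : ℤ => c * B * y)).Infinite := Set.infinite_range_of_injective hinj
    refine h1 (Set.Finite.subset (R.roots.toFinset.finite_toSet) ?_)
    rintro _ ⟨y, rfl⟩
    simp only [Finset.mem_coe, Multiset.mem_toFinset]
    exact (mem_roots hR0).2 (hcon y)
  obtain ⟨u, hu⟩ : ∃ u : ℤ, u = 1 + B * (y * (f.divX).eval (c * B * y)) := ⟨_, rfl⟩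
  have hfu : f.eval (c * B * y) = c * u := by
    rw [hg, hu]
    ring
  have hu1 : u.natAbs ≠ 1 := by
    intro h
    apply hy
    rw [hR, eval_mul, eval_mul, eval_sub, eval_add, eval_C, hfu]
    rcases Int.natAbs_eq u with h2 | h2 <;> rw [h] at h2 <;> rw [h2] <;> simp
  obtain ⟨p, hp, hpu⟩ := Nat.exists_prime_and_dvd hu1
  have hpu' : (p : ℤ) ∣ u := Int.natCast_dvd.2 hpu
  refine ⟨p, hp, fun hpS => ?_, c * B * y, hfu ▸ hpu'.mul_left c⟩
  have h1 : (p : ℤ) ∣ B := by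
    rw [hB]
    exact_mod_cast Finset.dvd_prod_of_mem (fun p => p) hpS
  have h2 : (p : ℤ) ∣ 1 := by
    have h3 : u - B * (y * (f.divX).eval (c * B * y)) = 1 := by rw [hu]; ring
    rw [← h3]
    exact dvd_sub hpu' (h1.mul_right _)
  have h4 : p ∣ 1 := by exact_mod_cast h2
  exact hp.one_lt.ne' (Nat.dvd_one.1 h4)

section
variable (k : Type) [Field k] [NumberField k]

/-- an integral primitive element and a common denominator -/
theorem prim : ∃ (θ : 𝓞 k) (c : ℤ), c ≠ 0 ∧ ∀ x : 𝓞 k, ∃ G : ℤ[X], (c : 𝓞 k) * x = aeval θ G := by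
  obtain ⟨α, hα⟩ := Field.exists_primitive_element ℚ k
  have hαi : IsAlgebraic ℤ α := by
    have : IsAlgebraic ℚ α := Algebra.IsAlgebraic.isAlgebraic α
    exact (IsFractionRing.isAlgebraic_iff ℤ ℚ k).2 this
  obtain ⟨y, hy0, hy⟩ := hαi.exists_integral_multiple
  obtain ⟨θ, hθ⟩ : ∃ θ : 𝓞 k, algebraMap (𝓞 k) k θ = y • α := ⟨⟨y • α, hy⟩, rfl⟩
  have hinj : Function.Injective (algebraMap (𝓞 k) k) := RingOfIntegers.coe_injective
  have hx : ∀ x : 𝓞 k, ∃ (c : ℤ) (G : ℤ[X]), c ≠ 0 ∧ (c : 𝓞 k) * x = aeval θ G := by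
    intro x
    have h1 : (algebraMap (𝓞 k) k x) ∈ IntermediateField.adjoin ℚ {α} := by
      rw [hα]
      trivial
    have hint : IsIntegral ℚ α := Algebra.IsIntegral.isIntegral α
    rw [← IntermediateField.mem_toSubalgebra,
      IntermediateField.adjoin_simple_toSubalgebra_of_isAlgebraic hint.isAlgebraic,
      Algebra.adjoin_singleton_eq_range_aeval] at h1
    obtain ⟨g, hg⟩ := h1
    have hg1 : aeval α g = algebraMap (𝓞 k) k x := hg
    -- replace `α` by `y α`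
    have hyQ : (y : ℚ) ≠ 0 := by exact_mod_cast hy0
    have hα2 : α = algebraMap ℚ k ((y : ℚ)⁻¹) * algebraMap (𝓞 k) k θ := by
      rw [hθ, zsmul_eq_mul, ← mul_assoc]
      have h2 : algebraMap ℚ k ((y : ℚ)⁻¹) * (y : k) = 1 := by
        have h3 : (y : k) = algebraMap ℚ k (y : ℚ) := by simp
        rw [h3, ← map_mul, inv_mul_cancel₀ hyQ, map_one]
      rw [h2, one_mul]
    obtain ⟨g', hg'⟩ : ∃ g' : ℚ[X], aeval (algebraMap (𝓞 k) k θ) g' = algebraMap (𝓞 k) k x := by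
      refine ⟨g.comp (C ((y : ℚ)⁻¹) * X), ?_⟩
      rw [aeval_comp, map_mul, aeval_C, aeval_X, ← hα2, hg1]
    obtain ⟨c, hcm, hc⟩ := IsLocalization.integerNormalization_spec (nonZeroDivisors ℤ) g'
    refine ⟨c, IsLocalization.integerNormalization (nonZeroDivisors ℤ) g',
      nonZeroDivisors.ne_zero hcm, ?_⟩
    apply hinj
    have h4 : algebraMap (𝓞 k) k (aeval θ (IsLocalization.integerNormalization
        (nonZeroDivisors ℤ) g')) = aeval (algebraMap (𝓞 k) k θ)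
          ((IsLocalization.integerNormalization (nonZeroDivisors ℤ) g').map (algebraMap ℤ ℚ)) := by
      rw [aeval_map_algebraMap, aeval_algebraMap_apply]
    rw [h4, hc, map_mul]
    have h5 : aeval (algebraMap (𝓞 k) k θ) ((c : ℤ) • g') = (c : k) * algebraMap (𝓞 k) k x := by
      rw [map_zsmul, hg', zsmul_eq_mul]
    rw [h5]
    simp
  choose c G hc hG using hx
  obtain ⟨B⟩ : Nonempty (Module.Basis (Module.Free.ChooseBasisIndex ℤ (𝓞 k)) ℤ (𝓞 k)) :=
    ⟨Module.Free.chooseBasis ℤ (𝓞 k)⟩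
  refine ⟨θ, ∏ i, c (B i), Finset.prod_ne_zero_iff.2 fun i _ => hc _, ?_⟩
  have hmem : ∀ x : 𝓞 k, ((∏ i, c (B i) : ℤ) : 𝓞 k) * x ∈ Algebra.adjoin ℤ {θ} := by
    intro x
    have hxs : x = ∑ i, B.repr x i • B i := (B.sum_repr x).symm
    rw [hxs, Finset.mul_sum]
    refine Subalgebra.sum_mem _ fun i _ => ?_
    classical
    rw [mul_smul_comm]
    refine Subalgebra.zsmul_mem _ ?_ _
    rw [← Finset.prod_erase_mul _ _ (Finset.mem_univ i), Int.cast_mul, mul_assoc, hG,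
      Algebra.adjoin_singleton_eq_range_aeval]
    exact Subalgebra.mul_mem _ (Subalgebra.intCast_mem _ _) ⟨_, rfl⟩
  intro x
  have := hmem x
  rw [Algebra.adjoin_singleton_eq_range_aeval] at this
  obtain ⟨G, hG⟩ := this
  exact ⟨G, hG.symm⟩

/-- infinitely many primes of degree one -/
theorem deg_one (S : Finset ℕ) (hS : ∀ p ∈ S, p.Prime) : ∃ p : ℕ, p.Prime ∧ p ∉ S ∧
    ∃ P : HeightOneSpectrum (𝓞 k), (p : 𝓞 k) ∈ P.asIdeal ∧
      ∀ x : 𝓞 k, ∃ a : ℤ, x - (a : 𝓞 k) ∈ P.asIdeal := by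
  obtain ⟨θ, c, hc, hG⟩ := prim k
  have hθ : IsIntegral ℤ θ := Algebra.IsIntegral.isIntegral θ
  have hdeg : 0 < (minpoly ℤ θ).natDegree := minpoly.natDegree_pos hθ
  obtain ⟨p, hp, hpS, a, ha⟩ := schur (minpoly ℤ θ) hdeg (S ∪ c.natAbs.primeFactors) (by
    intro p hp
    rcases Finset.mem_union.1 hp with h | h
    · exact hS p h
    · exact Nat.prime_of_mem_primeFactors h)
  rw [Finset.mem_union, not_or] at hpS
  obtain ⟨hpS, hpc⟩ := hpS
  have hpc' : ¬ (p : ℤ) ∣ c := by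
    intro h
    apply hpc
    rw [Nat.mem_primeFactors]
    exact ⟨hp, Int.natCast_dvd.1 h, Int.natAbs_ne_zero.2 hc⟩
  refine ⟨p, hp, hpS, ?_⟩
  -- the ideal generated by `p` and `θ - a` is proper
  have hne : Ideal.span {(p : 𝓞 k), θ - (a : 𝓞 k)} ≠ ⊤ := by
    intro h
    rw [Ideal.eq_top_iff_one, Ideal.mem_span_pair] at h
    obtain ⟨x, y, hxy⟩ := h
    obtain ⟨Gx, hGx⟩ := hG x
    obtain ⟨Gy, hGy⟩ := hG y
    have h1 : aeval θ (C (p : ℤ) * Gx + (X - C a) * Gy - C c) = 0 := by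
      rw [map_sub, map_add, map_mul, map_mul, map_sub, aeval_C, aeval_C, aeval_C, aeval_X, ← hGx,
        ← hGy]
      have h2 : (algebraMap ℤ (𝓞 k)) (p : ℤ) = (p : 𝓞 k) := by simp
      have h3 : (algebraMap ℤ (𝓞 k)) a = (a : 𝓞 k) := by simp
      have h4 : (algebraMap ℤ (𝓞 k)) c = (c : 𝓞 k) := by simp
      rw [h2, h3, h4]
      linear_combination (c : 𝓞 k) * hxy
    obtain ⟨h, hh⟩ := minpoly.isIntegrallyClosed_dvd hθ h1
    have h5 := congrArg (Polynomial.eval a) hh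
    rw [eval_sub, eval_add, eval_mul, eval_mul, eval_sub, eval_C, eval_C, eval_C, eval_X, sub_self,
      zero_mul, add_zero, eval_mul] at h5
    apply hpc'
    have h6 : c = (p : ℤ) * Gx.eval a - (minpoly ℤ θ).eval a * h.eval a := by
      rw [← h5]
      ring
    rw [h6]
    exact dvd_sub (dvd_mul_right _ _) (ha.mul_right _)
  obtain ⟨M, hM, hle⟩ := Ideal.exists_le_maximal _ hne
  have hpM : (p : 𝓞 k) ∈ M := hle (Ideal.subset_span (by simp))
  have hθM : θ - (a : 𝓞 k) ∈ M := hle (Ideal.subset_span (by simp))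
  refine ⟨⟨M, hM.isPrime, fun h0 => ?_⟩, hpM, fun x => ?_⟩
  · rw [h0, Ideal.mem_bot] at hpM
    exact hp.ne_zero (by exact_mod_cast hpM)
  · obtain ⟨G, hG⟩ := hG x
    -- `c x = G(θ) = G(a)` modulo `M`
    have h1 : aeval θ G - ((G.eval a : ℤ) : 𝓞 k) ∈ M := by
      have h2 : (X - C a) ∣ G - C (G.eval a) := by
        rw [dvd_iff_isRoot, IsRoot, eval_sub, eval_C, sub_self]
      obtain ⟨H, hH⟩ := h2
      have h3 := congrArg (aeval θ) hH
      rw [map_sub, map_mul, map_sub, aeval_C, aeval_C, aeval_X] at h3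
      have h4 : (algebraMap ℤ (𝓞 k)) (G.eval a) = ((G.eval a : ℤ) : 𝓞 k) := by simp
      have h5 : (algebraMap ℤ (𝓞 k)) a = (a : 𝓞 k) := by simp
      rw [h4, h5] at h3
      rw [h3]
      exact Ideal.mul_mem_right _ _ hθM
    -- the inverse of `c` modulo `p`
    have hcop : IsCoprime (p : ℤ) c := (Nat.prime_iff_prime_int.1 hp).coprime_iff_not_dvd.2 hpc'
    obtain ⟨s, t, hst⟩ := hcop
    refine ⟨t * G.eval a, ?_⟩
    have h6 : x - ((t * G.eval a : ℤ) : 𝓞 k) = (s : 𝓞 k) * x * (p : 𝓞 k) +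
        (t : 𝓞 k) * (aeval θ G - ((G.eval a : ℤ) : 𝓞 k)) := by
      have h7 : (s : 𝓞 k) * (p : 𝓞 k) + (t : 𝓞 k) * (c : 𝓞 k) = 1 := by
        exact_mod_cast congrArg (Int.cast : ℤ → 𝓞 k) hst
      rw [← hG]
      push_cast
      linear_combination (-x) * h7
    rw [h6]
    exact M.add_mem (M.mul_mem_left _ hpM) (M.mul_mem_left _ h1)

end

section
variable (A k : Type) [Field A] [NumberField A] [Field k] [NumberField k] [Algebra A k]

/-- infinitely many primes of `𝓞 A` with a prime of degree one of `𝓞 k` above -/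
theorem split_inf : {p : HeightOneSpectrum (𝓞 A) | ∃ P : HeightOneSpectrum (𝓞 k),
    (∀ x : 𝓞 A, x ∈ p.asIdeal ↔ algebraMap (𝓞 A) (𝓞 k) x ∈ P.asIdeal) ∧
      ∀ y : 𝓞 k, ∃ x : 𝓞 A, y - algebraMap (𝓞 A) (𝓞 k) x ∈ P.asIdeal}.Infinite := by
  intro hfin
  -- the rational primes below
  have hcar : ∀ p : HeightOneSpectrum (𝓞 A), ∃ q : ℕ, ∀ r : ℕ, r.Prime → (r : 𝓞 A) ∈ p.asIdeal →
      r = q := by
    intro p
    by_cases h : ∃ q : ℕ, q.Prime ∧ (q : 𝓞 A) ∈ p.asIdeal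
    · obtain ⟨q, hq, hqp⟩ := h
      refine ⟨q, fun r hr hrp => ?_⟩
      by_contra hne
      have hc : Nat.Coprime r q := (Nat.coprime_primes hr hq).2 hne
      have h3 : (1 : 𝓞 A) ∈ p.asIdeal := by
        have hb := Nat.gcd_eq_gcd_ab r q
        rw [hc] at hb
        have hb' : (1 : 𝓞 A) = (((r : ℕ) : ℤ) : 𝓞 A) * ((Nat.gcdA r q : ℤ) : 𝓞 A) +
            (((q : ℕ) : ℤ) : 𝓞 A) * ((Nat.gcdB r q : ℤ) : 𝓞 A) := by
          rw [← Int.cast_mul, ← Int.cast_mul, ← Int.cast_add, ← hb]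
          simp
        rw [hb']
        refine add_mem (Ideal.mul_mem_right _ _ ?_) (Ideal.mul_mem_right _ _ ?_)
        · rw [Int.cast_natCast]; exact hrp
        · rw [Int.cast_natCast]; exact hqp
      exact p.isPrime.ne_top ((Ideal.eq_top_iff_one _).2 h3)
    · push Not at h
      exact ⟨0, fun r hr hrp => absurd hrp (h r hr)⟩
  choose q hq using hcar
  classical
  obtain ⟨r, hr, hrS, P, hrP, hP⟩ := deg_one k ((hfin.toFinset.image q).filter Nat.Prime) (by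
    intro p hp
    exact (Finset.mem_filter.1 hp).2)
  -- the prime below
  have hcomap : (P.asIdeal.comap (algebraMap (𝓞 A) (𝓞 k))).IsPrime := by
    haveI := P.isPrime
    exact Ideal.comap_isPrime _ _
  have hrA : (r : 𝓞 A) ∈ P.asIdeal.comap (algebraMap (𝓞 A) (𝓞 k)) := by
    rw [Ideal.mem_comap, map_natCast]
    exact hrP
  obtain ⟨p, hp⟩ : ∃ p : HeightOneSpectrum (𝓞 A),
      p.asIdeal = P.asIdeal.comap (algebraMap (𝓞 A) (𝓞 k)) := by
    refine ⟨⟨_, hcomap, fun h0 => ?_⟩, rfl⟩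
    rw [h0, Ideal.mem_bot] at hrA
    exact hr.ne_zero (by exact_mod_cast hrA)
  have hpm : p ∈ hfin.toFinset := by
    rw [Set.Finite.mem_toFinset]
    refine ⟨P, fun x => by rw [hp, Ideal.mem_comap], fun y => ?_⟩
    obtain ⟨a, ha⟩ := hP y
    refine ⟨(a : 𝓞 A), ?_⟩
    rw [map_intCast]
    exact ha
  apply hrS
  rw [Finset.mem_filter]
  refine ⟨Finset.mem_image.2 ⟨p, hpm, ?_⟩, hr⟩
  exact (hq p r hr (hp ▸ hrA)).symm

end

end Pool.Agent.Y164.NZ
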