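import Pool.Agent.Y164.NZ.Fin3
import Pool.Agent.Y164.NZ.Spl

/-!
The theorem for number fields, in the relative form: the coefficients are in the ring of integers of a
number field `A`, the surfaces are considered over a finite extension `k`.
-/

set_option autoImplicit false
set_option linter.all false

open Polynomial IsDedekindDomain NumberField
open scoped Classical

namespace Pool.Agent.Y164.NZ

open Finset Filter
open Pool.Agent.Y164.SZ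
open Pool.Agent.Y164.HG (tw)
open Pool.Agent.TH115.GD (IsTower)

section prime
variable {A : Type} [CommRing A]
  {ℓ : ℕ} [hℓ : Fact ℓ.Prime] {F : Type} [Field F] [Fintype F] [DecidableEq F]
  {n : ℕ} {b : Fin n → A[X]} {N : ℕ}

/-- the count at one prime -/
theorem prime_count2 (hFGEN : S_FGEN) (hUNI : S_UNI) (hCRIT : S_CRIT) (hl2 : ℓ ≠ 2)
    (hn : ¬ ℓ ∣ n) (hn3 : 3 ≤ n) (hN : 1 ≤ N) (r : A →+* F) (hr : RedOK ℓ N b r)
    (hq : 8 * ((Dif b).natDegree + 1) ≤ Fintype.card F)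
    (G : A[X] → Prop)
    (hG : ∀ (H : Geo ℓ (fun i => (b i).map r) N) (σ : Tau (fun i => (b i).map r) → ZMod ℓ),
      Imp (H.dat σ) (QQ (fun i => (b i).map r))
        (fun E => ¬ ℓ ∣ E.natDegree → ∀ D : A[X], D.Monic → D.map r = E → G D)) :
    ∀ᶠ m : ℕ in atTop, ¬ ℓ ∣ m → ¬ ℓ ∣ m + n * N →
      (∏' i : ℕ, (1 + ((ℓ : ℝ)⁻¹) ^ (i + 1))⁻¹) / 4 * (Fintype.card F : ℝ) ^ m ≤
        (({E : F[X] | E.Monic ∧ E.natDegree = m ∧ E ∈ tw (fun i => (b i).map r) m ∧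
          Good ℓ (RatFunc F) (fun i => (b i).map r) E ∧
          ∀ D : A[X], D.Monic → D.map r = E → G D}).ncard : ℝ) := by
  have hlk : ℓ ∣ Fintype.card F - 1 := by
    have := hr.div
    rwa [Nat.card_eq_fintype_card] at this
  have hl3 : 3 ≤ ℓ := by
    have := hℓ.out.two_le
    omega
  obtain ⟨-, hκ⟩ := Pool.Agent.Y515.SZ.t ℓ (by omega)
  obtain ⟨κ, hκd⟩ : ∃ κ : ℝ, κ = ∏' i : ℕ, (1 + ((ℓ : ℝ)⁻¹) ^ (i + 1))⁻¹ := ⟨_, rfl⟩
  rw [← hκd] at hκ ⊢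
  have hG' : ∀ (H : Geo ℓ (fun i => (b i).map r) N) (σ : Tau (fun i => (b i).map r) → ZMod ℓ),
      Imp (H.dat σ) (QQ (fun i => (b i).map r))
        (fun E => (¬ ℓ ∣ E.natDegree → ∀ D : A[X], D.Monic → D.map r = E → G D) ∧
          Good ℓ (RatFunc F) (fun i => (b i).map r) E) := by
    intro H σ ι _ T hR hcl hpar htr
    obtain ⟨ζ, hζ⟩ := root_of_dvd hlk
    exact ⟨hG H σ ι T hR hcl hpar htr,
      Pool.Agent.Y164.SZ.imp_good (K := RatFunc F) H hCRIT hζ σ ι T hR hcl hpar htr⟩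
  have h1 := hFGEN ℓ hl2 F hr.two hlk n hn hn3 N hN (fun i => (b i).map r) hr.deg hr.sq _ hG'
    (κ / 2) (by linarith)
  have hne : ∀ i j, i ≠ j → (b i).map r ≠ (b j).map r := by
    intro i j hij h
    have := hr.deg i j hij
    rw [h, sub_self, natDegree_zero] at this
    omega
  filter_upwards [h1] with m hm hm1 hm2
  have h2 := hm hm2
  rw [← hκd] at h2
  have hq2 : 8 * ((Dif (fun i => (b i).map r)).natDegree + 1) ≤ Fintype.card F := by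
    refine le_trans ?_ hq
    have : (Dif (fun i => (b i).map r)).natDegree ≤ (Dif b).natDegree := by
      rw [← dif_map]
      exact natDegree_map_le
    omega
  have h3 := hUNI F n _ hne hq2 m
  have h4 : (Fintype.card F : ℝ) ^ m ≤ 2 * ((tw (fun i => (b i).map r) m).ncard : ℝ) := by
    exact_mod_cast h3
  have h5 : κ / 4 * (Fintype.card F : ℝ) ^ m ≤
      (κ - κ / 2) * ((tw (fun i => (b i).map r) m).ncard : ℝ) := by
    nlinarith
  refine h5.trans (h2.trans ?_)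
  norm_cast
  apply Set.ncard_le_ncard
  · rintro E ⟨hE, hE2, hE3⟩
    exact ⟨hE.1, hE.2.1, hE, hE3, fun D hD hDE => hE2 (by rw [hE.2.1]; exact hm1) D hD hDE⟩
  · obtain ⟨-, hfin⟩ := Pool.Agent.Y188.NZ.card_monic F m
    have h6 : ({p : F[X] | p.Monic ∧ p.natDegree = m}).Finite := hfin
    exact h6.subset fun E hE => ⟨hE.1, hE.2.1⟩

end prime

section
variable {A k : Type} [Field A] [NumberField A] [Field k] [NumberField k] [Algebra A k]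

/-- `P` is a prime of degree one of `𝓞 k` over the prime `p` of `𝓞 A` -/
def Abv (p : HeightOneSpectrum (𝓞 A)) (P : HeightOneSpectrum (𝓞 k))
    (e : 𝓞 k ⧸ P.asIdeal →+* 𝓞 A ⧸ p.asIdeal) : Prop :=
  Function.Surjective e ∧
    (∀ x : 𝓞 A, e (Ideal.Quotient.mk P.asIdeal (algebraMap (𝓞 A) (𝓞 k) x)) =
      Ideal.Quotient.mk p.asIdeal x) ∧
    (∀ x : 𝓞 A, x ∈ p.asIdeal ↔ algebraMap (𝓞 A) (𝓞 k) x ∈ P.asIdeal) ∧
    Nat.card (𝓞 A ⧸ p.asIdeal) = Nat.card (𝓞 k ⧸ P.asIdeal)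

theorem abv (p : HeightOneSpectrum (𝓞 A)) (P : HeightOneSpectrum (𝓞 k))
    (h1 : ∀ x : 𝓞 A, x ∈ p.asIdeal ↔ algebraMap (𝓞 A) (𝓞 k) x ∈ P.asIdeal)
    (h2 : ∀ y : 𝓞 k, ∃ x : 𝓞 A, y - algebraMap (𝓞 A) (𝓞 k) x ∈ P.asIdeal) :
    ∃ e : 𝓞 k ⧸ P.asIdeal →+* 𝓞 A ⧸ p.asIdeal, Abv p P e := by
  obtain ⟨φ, hφ⟩ : ∃ φ : 𝓞 A ⧸ p.asIdeal →+* 𝓞 k ⧸ P.asIdeal,
      ∀ x, φ (Ideal.Quotient.mk p.asIdeal x) =
        Ideal.Quotient.mk P.asIdeal (algebraMap (𝓞 A) (𝓞 k) x) :=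
    ⟨Ideal.quotientMap P.asIdeal (algebraMap (𝓞 A) (𝓞 k)) (fun x hx => (h1 x).1 hx),
      fun x => Ideal.quotientMap_mk⟩
  have hbij : Function.Bijective φ := by
    constructor
    · rw [injective_iff_map_eq_zero]
      intro y hy
      obtain ⟨x, rfl⟩ := Ideal.Quotient.mk_surjective y
      rw [hφ, Ideal.Quotient.eq_zero_iff_mem, ← h1] at hy
      exact Ideal.Quotient.eq_zero_iff_mem.2 hy
    · intro y
      obtain ⟨y, rfl⟩ := Ideal.Quotient.mk_surjective y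
      obtain ⟨x, hx⟩ := h2 y
      refine ⟨Ideal.Quotient.mk _ x, ?_⟩
      rw [hφ]
      exact ((Ideal.Quotient.eq).2 hx).symm
  obtain ⟨Φ, hΦ⟩ : ∃ Φ : (𝓞 A ⧸ p.asIdeal) ≃+* (𝓞 k ⧸ P.asIdeal), ∀ x, Φ x = φ x :=
    ⟨RingEquiv.ofBijective φ hbij, fun x => rfl⟩
  refine ⟨Φ.symm.toRingHom, Φ.symm.surjective, fun x => ?_, h1, Nat.card_congr Φ.toEquiv⟩
  have h3 : Φ (Ideal.Quotient.mk p.asIdeal x) =
      Ideal.Quotient.mk P.asIdeal (algebraMap (𝓞 A) (𝓞 k) x) := by rw [hΦ, hφ]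
  rw [← h3]
  exact Φ.symm_apply_apply _

/-- good primes of `A` -/
theorem nf2 {ℓ : ℕ} (hℓ : ℓ.Prime) {ζ : k} (hζ : IsPrimitiveRoot ζ ℓ) {n N : ℕ} (hN : 1 ≤ N)
    (b : Fin n → (𝓞 A)[X]) (hb : ∀ i j, i ≠ j → (b i - b j).natDegree = N)
    (hsq : Squarefree ((Dif b).map (algebraMap (𝓞 A) A))) (X : ℕ) :
    {P : HeightOneSpectrum (𝓞 A) | (Finite (𝓞 A ⧸ P.asIdeal) ∧ X ≤ Nat.card (𝓞 A ⧸ P.asIdeal) ∧
      (2 : 𝓞 A) ∉ P.asIdeal ∧ ℓ ∣ Nat.card (𝓞 A ⧸ P.asIdeal) - 1 ∧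
      (∀ i j, i ≠ j → (b i - b j).leadingCoeff ∉ P.asIdeal) ∧
      Squarefree ((Dif b).map (Ideal.Quotient.mk P.asIdeal))) ∧
      ∃ (Q : HeightOneSpectrum (𝓞 k)) (e : 𝓞 k ⧸ Q.asIdeal →+* 𝓞 A ⧸ P.asIdeal),
        Abv P Q e}.Infinite := by
  obtain ⟨c, A', B, hc0, hAB⟩ := Pool.Agent.Y665.NZ.bezout hsq
  have hlc : ∀ i j, i ≠ j → (b i - b j).leadingCoeff ≠ 0 := by
    intro i j hij h0
    rw [leadingCoeff_eq_zero] at h0
    have := hb i j hij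
    rw [h0, natDegree_zero] at this
    omega
  have hbad : ({P : HeightOneSpectrum (𝓞 A) | (2 : 𝓞 A) ∈ P.asIdeal} ∪
      {P : HeightOneSpectrum (𝓞 A) | (ℓ : 𝓞 A) ∈ P.asIdeal} ∪
      {P : HeightOneSpectrum (𝓞 A) | c ∈ P.asIdeal} ∪
      {P : HeightOneSpectrum (𝓞 A) | Ideal.absNorm P.asIdeal ≤ X} ∪
      ⋃ x : Fin n × Fin n, {P : HeightOneSpectrum (𝓞 A) |
        x.1 ≠ x.2 ∧ (b x.1 - b x.2).leadingCoeff ∈ P.asIdeal}).Finite := by
    refine ((((Pool.Agent.Y665.NZ.fin_mem two_ne_zero).union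
      (Pool.Agent.Y665.NZ.fin_mem (by exact_mod_cast hℓ.ne_zero))).union
      (Pool.Agent.Y665.NZ.fin_mem hc0)).union (Pool.Agent.Y665.NZ.fin_norm X)).union
        (Set.finite_iUnion fun x => ?_)
    by_cases hx : x.1 = x.2
    · refine Set.Finite.subset Set.finite_empty ?_
      rintro P ⟨h, -⟩
      exact absurd hx h
    · exact (Pool.Agent.Y665.NZ.fin_mem (hlc _ _ hx)).subset fun P hP => hP.2
  refine ((split_inf A k).diff hbad).mono ?_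
  rintro P ⟨⟨Q, hQ1, hQ2⟩, hP⟩
  obtain ⟨e, he⟩ := abv P Q hQ1 hQ2
  simp only [Set.mem_union, Set.mem_ofPred_eq, Set.mem_iUnion, not_or,
    not_exists, not_and] at hP
  obtain ⟨⟨⟨⟨h2, hl⟩, hc⟩, hX⟩, hij⟩ := hP
  have hfin : Finite (𝓞 A ⧸ P.asIdeal) := Ideal.finiteQuotientOfFreeOfNeBot P.asIdeal P.ne_bot
  have hfinQ : Finite (𝓞 k ⧸ Q.asIdeal) := Ideal.finiteQuotientOfFreeOfNeBot Q.asIdeal Q.ne_bot
  refine ⟨⟨hfin, ?_, h2, ?_, fun i j h => hij (i, j) h, Pool.Agent.Y665.NZ.sqf_red hAB P hc⟩,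
    Q, e, he⟩
  · have e : Nat.card (𝓞 A ⧸ P.asIdeal) = Ideal.absNorm P.asIdeal := rfl
    rw [e]
    omega
  · rw [he.2.2.2]
    refine Pool.Agent.Y665.NZ.dvd_card hℓ hζ Q (fun h => hl ?_) hfinQ
    rw [hQ1, map_natCast]
    exact h

end

theorem final2 (hFGEN : S_FGEN) (hUNI : S_UNI) (hCRIT : S_CRIT) (hCNT : S_CNT)
    (hABS : S_ABS) (hLINK : S_LINK) (hL : Lems)
    {ℓ : ℕ} (hℓ : ℓ.Prime) (hl2 : ℓ ≠ 2) {A k : Type} [Field A] [NumberField A] [Field k]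
    [NumberField k] [Algebra A k] {ζ : k}
    (hζ : IsPrimitiveRoot ζ ℓ) (k' K Ft : Type) [Field k'] [Algebra k k'] [Field K]
    [Algebra k[X] K] [IsFractionRing k[X] K] [Field Ft] [Algebra k'[X] Ft] [IsFractionRing k'[X] Ft]
    [Algebra K Ft] (hT : IsTower k k' K Ft) {n : ℕ} (hn : ¬ ℓ ∣ n) (hn3 : 3 ≤ n) {N : ℕ}
    (hN : 1 ≤ N) (b : Fin n → (𝓞 A)[X]) (hb : ∀ i j, i ≠ j → (b i - b j).natDegree = N)
    (hs : Squarefree ((Dif b).map (algebraMap (𝓞 A) A)))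
    (η : ℝ) (hη : 0 < η) : ∃ M : Ideal (𝓞 A), M ≠ ⊥ ∧ ∀ᶠ m : ℕ in atTop, ¬ ℓ ∣ m →
      ¬ ℓ ∣ m + n * N → (1 - η) * (Nat.card (𝓞 A ⧸ M) : ℝ) ^ m ≤
        (({E : (𝓞 A ⧸ M)[X] | E.Monic ∧ E.natDegree = m ∧ ∀ D : (𝓞 A)[X], D.Monic →
          D.map (Ideal.Quotient.mk M) = E →
            Concl (Ft := Ft) ℓ k' K
              (fun i => ((b i).map (algebraMap (𝓞 A) (𝓞 k))).map (algebraMap (𝓞 k) k))
              ((D.map (algebraMap (𝓞 A) (𝓞 k))).map (algebraMap (𝓞 k) k)) ∧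
            GoodRed ℓ N (fun i => (b i).map (algebraMap (𝓞 A) (𝓞 k)))
              (D.map (algebraMap (𝓞 A) (𝓞 k)))}).ncard : ℝ) := by
  haveI : Fact ℓ.Prime := ⟨hℓ⟩
  obtain ⟨ι, hι⟩ : ∃ ι : 𝓞 A →+* 𝓞 k, ι = algebraMap (𝓞 A) (𝓞 k) := ⟨_, rfl⟩
  rw [← hι]
  have hιi : Function.Injective ι := by
    rw [hι]
    exact FaithfulSMul.algebraMap_injective _ _
  obtain ⟨κ, hκd⟩ : ∃ κ : ℝ, κ = ∏' i : ℕ, (1 + ((ℓ : ℝ)⁻¹) ^ (i + 1))⁻¹ := ⟨_, rfl⟩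
  have hκ : 0 < κ := hκd ▸ kappa_pos hℓ.two_le
  obtain ⟨c, hc⟩ : ∃ c : ℝ, c = min (κ / 4) 1 := ⟨_, rfl⟩
  have hc0 : 0 < c := hc ▸ lt_min (by linarith) one_pos
  have hc1 : c ≤ 1 := hc ▸ min_le_right _ _
  have hcκ : c ≤ κ / 4 := hc ▸ min_le_left _ _
  obtain ⟨r, hr⟩ := exists_pow_lt_of_lt_one hη (show 1 - c < 1 by linarith)
  obtain ⟨r, hr1, hr⟩ : ∃ r : ℕ, 1 ≤ r ∧ (1 - c) ^ r < η :=
    ⟨r + 1, by omega, lt_of_le_of_lt (pow_le_pow_of_le_one (by linarith) (by linarith)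
      (Nat.le_succ r)) hr⟩
  have hinf := nf2 (k := k) hℓ hζ hN b hb hs (8 * ((Dif b).natDegree + 1))
  obtain ⟨P, hPinj, hP⟩ : ∃ P : Fin r → HeightOneSpectrum (𝓞 A), Function.Injective P ∧
      ∀ i, P i ∈ {P : HeightOneSpectrum (𝓞 A) | (Finite (𝓞 A ⧸ P.asIdeal) ∧
        8 * ((Dif b).natDegree + 1) ≤ Nat.card (𝓞 A ⧸ P.asIdeal) ∧
        (2 : 𝓞 A) ∉ P.asIdeal ∧ ℓ ∣ Nat.card (𝓞 A ⧸ P.asIdeal) - 1 ∧
        (∀ i j, i ≠ j → (b i - b j).leadingCoeff ∉ P.asIdeal) ∧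
        Squarefree ((Dif b).map (Ideal.Quotient.mk P.asIdeal))) ∧
        ∃ (Q : HeightOneSpectrum (𝓞 k)) (e : 𝓞 k ⧸ Q.asIdeal →+* 𝓞 A ⧸ P.asIdeal),
          Abv P Q e} := by
    refine ⟨fun i => (hinf.natEmbedding _ i.1).1, ?_, fun i => (hinf.natEmbedding _ i.1).2⟩
    intro i j hij
    exact Fin.ext ((hinf.natEmbedding _).injective (Subtype.ext hij))
  obtain ⟨I, hI⟩ : ∃ I : Fin r → Ideal (𝓞 A), I = fun i => (P i).asIdeal := ⟨_, rfl⟩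
  have hImax : ∀ i, (I i).IsMaximal := fun i => by rw [hI]; exact (P i).isMaximal
  have hIne : ∀ i j, i ≠ j → I i ≠ I j := by
    intro i j hij h
    apply hij
    apply hPinj
    apply HeightOneSpectrum.ext
    rw [hI] at h
    exact h
  have hIfin : ∀ i, Finite (𝓞 A ⧸ I i) := fun i => by rw [hI]; exact (hP i).1.1
  have hM0 : (⨅ i, I i) ≠ ⊥ := by
    have h1 : ∏ i, I i ≤ ⨅ i, I i := by
      rw [← Finset.inf_univ_eq_iInf]
      exact Ideal.prod_le_inf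
    have h2 : ∏ i, I i ≠ ⊥ := by
      rw [← Ideal.zero_eq_bot]
      refine prod_ne_zero_iff.2 fun i _ => ?_
      rw [hI]
      exact (P i).ne_bot
    intro h
    rw [h] at h1
    exact h2 (le_bot_iff.1 h1)
  refine ⟨⨅ i, I i, hM0, ?_⟩
  obtain ⟨G, hGd⟩ : ∃ G : (𝓞 A)[X] → Prop, G = fun D =>
      Concl (Ft := Ft) ℓ k' K (fun i => ((b i).map ι).map (algebraMap (𝓞 k) k))
        ((D.map ι).map (algebraMap (𝓞 k) k)) := ⟨_, rfl⟩
  -- the counts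
  have hcount : ∀ i, ∀ᶠ m : ℕ in atTop, ¬ ℓ ∣ m → ¬ ℓ ∣ m + n * N →
      c * (Nat.card (𝓞 A ⧸ I i) : ℝ) ^ m ≤
      (({E : (𝓞 A ⧸ I i)[X] | E.Monic ∧ E.natDegree = m ∧ E ∈ {E : (𝓞 A ⧸ I i)[X] |
        ∀ D : (𝓞 A)[X], D.Monic → D.map (Ideal.Quotient.mk (I i)) = E →
          G D ∧ GoodRed ℓ N (fun i => (b i).map ι) (D.map ι)}}).ncard : ℝ) := by
    intro i
    subst hI
    obtain ⟨⟨h1, h2, h3, h4, h5, h6⟩, Q, e, he1, he2, he3, -⟩ := hP i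
    rw [← hι] at he2 he3
    haveI := hImax i
    letI : Field (𝓞 A ⧸ (P i).asIdeal) := Ideal.Quotient.field _
    haveI := h1
    letI : Fintype (𝓞 A ⧸ (P i).asIdeal) := Fintype.ofFinite _
    have hlead : ∀ i' j, i' ≠ j → Ideal.Quotient.mk (P i).asIdeal (b i' - b j).leadingCoeff ≠ 0 := by
      intro i' j hij
      rw [Ne, Ideal.Quotient.eq_zero_iff_mem]
      exact h5 i' j hij
    have hred : RedOK ℓ N b (Ideal.Quotient.mk (P i).asIdeal) := by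
      refine ⟨Ideal.Quotient.mk_surjective, ?_, ?_, ?_, h4⟩
      · have h7 : Ideal.Quotient.mk (P i).asIdeal (2 : 𝓞 A) ≠ 0 := by
          rw [Ne, Ideal.Quotient.eq_zero_iff_mem]
          exact h3
        have h8 : Ideal.Quotient.mk (P i).asIdeal (2 : 𝓞 A) = 2 := map_ofNat _ 2
        rw [h8] at h7
        exact h7
      · intro i' j hij
        rw [← Polynomial.map_sub, natDegree_map_of_leadingCoeff_ne_zero _ (hlead i' j hij)]
        exact hb i' j hij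
      · rw [← dif_map]
        exact h6
    have hq : 8 * ((Dif b).natDegree + 1) ≤ Fintype.card (𝓞 A ⧸ (P i).asIdeal) := by
      rw [← Nat.card_eq_fintype_card]
      exact h2
    -- the reduction of `𝓞 k`
    have hmap : ∀ p : (𝓞 A)[X], (p.map ι).map (e.comp (Ideal.Quotient.mk Q.asIdeal)) =
        p.map (Ideal.Quotient.mk (P i).asIdeal) := by
      intro p
      rw [Polynomial.map_map]
      congr 1
      ext x
      simp only [RingHom.comp_apply]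
      exact he2 x
    have hbr : (fun j => ((b j).map ι).map (e.comp (Ideal.Quotient.mk Q.asIdeal))) =
        fun j => (b j).map (Ideal.Quotient.mk (P i).asIdeal) := by
      funext j
      exact hmap (b j)
    have hlc' : ∀ i' j, i' ≠ j → ((b i').map ι - (b j).map ι).leadingCoeff ∉ Q.asIdeal := by
      intro i' j hij
      rw [← Polynomial.map_sub, leadingCoeff_map_of_injective hιi, ← he3]
      exact h5 i' j hij
    have hred' : RedOK ℓ N (fun j => (b j).map ι) (e.comp (Ideal.Quotient.mk Q.asIdeal)) := by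
      refine ⟨he1.comp Ideal.Quotient.mk_surjective, hred.two, ?_, ?_, h4⟩
      · intro i' j hij
        rw [hmap, hmap]
        exact hred.deg i' j hij
      · rw [hbr]
        exact hred.sq
    have hG : ∀ (a : Fin n → (𝓞 A ⧸ (P i).asIdeal)[X])
        (_ : a = fun j => ((b j).map ι).map (e.comp (Ideal.Quotient.mk Q.asIdeal)))
        (H : Geo ℓ a N) (σ : Tau a → ZMod ℓ),
        Imp (H.dat σ) (QQ a) (fun E => ¬ ℓ ∣ E.natDegree → ∀ D : (𝓞 A)[X], D.Monic →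
          D.map (Ideal.Quotient.mk (P i).asIdeal) = E → G D) := by
      intro a ha
      subst ha
      intro H σ ι' _ T hR hcl hpar htr hdE D hDm hDE
      have key := prime_gen Q e he1 (b := fun j => (b j).map ι) H hlc'
        (Concl (Ft := Ft) ℓ k' K) (by
          intro O _ _ _ _ _ ρ hρ b' H' hlc' σ' ι _ T hR hcl hpar htr hdE D hDm hDE
          exact ⟨imp_good H' hABS hLINK hρ hlc' hζ σ' ι T hR hcl hpar htr hdE D hDm hDE,
            imp_tate H' hL hLINK hT hρ hlc' hζ σ' ι T hR hcl hpar htr hdE D hDm hDE⟩) σ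
        ι' T hR hcl hpar htr hdE (D.map ι) (hDm.map _) (by rw [hmap]; exact hDE)
      rw [hGd]
      exact key
    have key := prime_count2 hFGEN hUNI hCRIT hl2 hn hn3 hN (Ideal.Quotient.mk (P i).asIdeal) hred hq
      G (fun H σ => hG _ hbr.symm H σ)
    rw [← hκd] at key
    filter_upwards [key] with m hm hm1 hm2
    have h7 := hm hm1 hm2
    rw [← Nat.card_eq_fintype_card] at h7
    have h8 : c * (Nat.card (𝓞 A ⧸ (P i).asIdeal) : ℝ) ^ m ≤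
        κ / 4 * (Nat.card (𝓞 A ⧸ (P i).asIdeal) : ℝ) ^ m :=
      mul_le_mul_of_nonneg_right hcκ (by positivity)
    refine h8.trans (h7.trans ?_)
    norm_cast
    apply Set.ncard_le_ncard
    · rintro E ⟨hE1, hE2, hE3, hE4, hE5⟩
      refine ⟨hE1, hE2, fun D hD hDE => ⟨hE5 D hD hDE, 𝓞 A ⧸ (P i).asIdeal, inferInstance,
        inferInstance, e.comp (Ideal.Quotient.mk Q.asIdeal), hred', ?_, ?_⟩⟩
      · rw [hbr, hmap, hDE]
        have h9 : (D.map ι).natDegree = m := by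
          rw [hD.natDegree_map, ← hE2, ← hDE, hD.natDegree_map]
        rw [h9]
        exact hE3
      · rw [hbr, hmap, hDE]
        exact hE4
    · obtain ⟨-, hfin⟩ := Pool.Agent.Y188.NZ.card_monic (𝓞 A ⧸ (P i).asIdeal) m
      have h6 : ({p : (𝓞 A ⧸ (P i).asIdeal)[X] | p.Monic ∧ p.natDegree = m}).Finite := hfin
      exact h6.subset fun E hE => ⟨hE.1, hE.2.1⟩
  have hall := eventually_all.2 hcount
  haveI : Finite (𝓞 A ⧸ (⨅ i, I i)) := Ideal.finiteQuotientOfFreeOfNeBot _ hM0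
  haveI : Nontrivial (𝓞 A ⧸ (⨅ i, I i)) := by
    rw [Ideal.Quotient.nontrivial_iff]
    intro h
    have h1 : (⨅ i, I i) ≤ I ⟨0, hr1⟩ := iInf_le _ _
    rw [h] at h1
    exact (hImax ⟨0, hr1⟩).ne_top (top_le_iff.1 h1)
  filter_upwards [hall] with m hm hm1 hm2
  have h1 := hCNT (𝓞 A) r hr1 I hImax hIne hIfin m (fun i => {E : (𝓞 A ⧸ I i)[X] |
        ∀ D : (𝓞 A)[X], D.Monic → D.map (Ideal.Quotient.mk (I i)) = E →
          G D ∧ GoodRed ℓ N (fun i => (b i).map ι) (D.map ι)}) c hc0.le hc1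
            (fun i => hm i hm1 hm2)
  have h2 : (1 - η) * (Nat.card (𝓞 A ⧸ (⨅ i, I i)) : ℝ) ^ m ≤
      (1 - (1 - c) ^ r) * (Nat.card (𝓞 A ⧸ (⨅ i, I i)) : ℝ) ^ m :=
    mul_le_mul_of_nonneg_right (by linarith) (by positivity)
  refine h2.trans (h1.trans ?_)
  norm_cast
  apply Set.ncard_le_ncard
  · rintro E ⟨hE1, hE2, i, hE3⟩
    refine ⟨hE1, hE2, fun D hD hDE => ?_⟩
    obtain ⟨h4, h5⟩ := hE3 D hDE D hD rfl
    rw [hGd] at h4
    exact ⟨h4, h5⟩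
  · obtain ⟨-, hfin⟩ := Pool.Agent.Y188.NZ.card_monic (𝓞 A ⧸ (⨅ i, I i)) m
    have h6 : ({p : (𝓞 A ⧸ (⨅ i, I i))[X] | p.Monic ∧ p.natDegree = m}).Finite := hfin
    exact h6.subset fun E hE => ⟨hE.1, hE.2.1⟩

end Pool.Agent.Y164.NZ
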