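import Pool.Agent.Y164.NZ.Stm2

/-!
The link of the calculus with the curve (project NZ): `S_LINK` from `S_LIFT` and `S_SYS`.
-/

set_option autoImplicit false
set_option linter.all false

open Polynomial IsDedekindDomain
open scoped Classical

namespace Pool.Agent.Y164.NZ

open Finset
open Pool.Agent.Y164.SZ
open Pool.Agent.Y713.SE (hp Pw mem_hp eq_hp val_hp_self val_eq_one_iff val_C exists_gen)
open Pool.Agent.Y164.PS (Fam el)

section valuations
variable {k K : Type} [Field k] [Field K] [Algebra k[X] K] [IsFractionRing k[X] K]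
variable {κ' : Type} [Fintype κ'] {Q : κ' → k[X]} (hirr : ∀ x, Irreducible (Q x))
  (hmon : ∀ x, (Q x).Monic) (hinj : Function.Injective Q)

include hmon hinj in
theorem notMem_of_ne {x y : κ'} (h : y ≠ x) : Q y ∉ (hp (Q x) (hirr x)).asIdeal := by
  rw [mem_hp]
  intro hd
  have h1 := eq_of_monic_of_associated (hmon x) (hmon y)
    (((hirr x).associated_of_dvd (hirr y)) hd)
  exact h (hinj h1).symm

theorem val_prod_one {v : HeightOneSpectrum k[X]} {c : k} (hc : c ≠ 0) (A : Finset κ')
    (h : ∀ x ∈ A, Q x ∉ v.asIdeal) :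
    v.valuation K (algebraMap k[X] K (C c * ∏ x ∈ A, Q x)) = 1 := by
  rw [map_mul, map_mul, val_C hc, one_mul, val_eq_one_iff]
  intro hm
  rw [v.isPrime.prod_mem_iff] at hm
  obtain ⟨x, hx, hx2⟩ := hm
  exact h x hx hx2

include hmon hinj in
theorem val_prod_exp {c : k} (hc : c ≠ 0) (A : Finset κ') {z : κ'} (hz : z ∈ A) :
    (hp (Q z) (hirr z)).valuation K (algebraMap k[X] K (C c * ∏ x ∈ A, Q x)) =
      WithZero.exp (-1 : ℤ) := by
  have h1 : C c * ∏ x ∈ A, Q x = Q z * (C c * ∏ x ∈ A.erase z, Q x) := by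
    rw [← mul_prod_erase A Q hz]; ring
  rw [h1, map_mul, map_mul, val_hp_self, val_prod_one hc, mul_one]
  intro x hx
  exact notMem_of_ne hirr hmon hinj (ne_of_mem_erase hx)

include hmon hinj in
theorem val_prod_hp {c : k} (hc : c ≠ 0) (A : Finset κ') {z : κ'} (hz : z ∉ A) :
    (hp (Q z) (hirr z)).valuation K (algebraMap k[X] K (C c * ∏ x ∈ A, Q x)) = 1 := by
  apply val_prod_one hc
  intro x hx
  exact notMem_of_ne hirr hmon hinj (fun h => hz (h ▸ hx))

end valuations

theorem link (hLIFT : S_LIFT) (hSYS : S_SYS) : S_LINK := by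
  intro ℓ hℓ O k F _ _ _ _ _ _ _ _ _ K _ _ _ ρ hρ n b N H hlc D hD ι _ T hR hDT D0 hδ he
  obtain ⟨a, ha⟩ : ∃ a : Fin n → F[X], a = fun i => (b i).map ρ := ⟨_, rfl⟩
  subst ha
  obtain ⟨a, ha⟩ : ∃ a : Fin n → F[X], a = fun i => (b i).map ρ := ⟨_, rfl⟩
  have hkO : Function.Injective (algebraMap O k) := IsFractionRing.injective O k
  -- reductions of the differences
  have hρlc : ∀ i j, i ≠ j → ρ (b i - b j).leadingCoeff ≠ 0 := fun i j hij =>
    ((hlc i j hij).map ρ).ne_zero
  have hsub : ∀ i j, (b i).map ρ - (b j).map ρ = (b i - b j).map ρ := fun i j => by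
    rw [Polynomial.map_sub]
  have hlcρ : ∀ i j, i ≠ j → ((b i).map ρ - (b j).map ρ).leadingCoeff =
      ρ (b i - b j).leadingCoeff := by
    intro i j hij
    rw [hsub, leadingCoeff_map_of_leadingCoeff_ne_zero ρ (hρlc i j hij)]
  -- the classes
  obtain ⟨f, hf⟩ : ∃ f : Option {x : Fin n × Fin n // x.1 < x.2} → O[X],
      f = fun o => o.elim D (fun x => b x.1.1 - b x.1.2) := ⟨_, rfl⟩
  obtain ⟨cls, hcls⟩ : ∃ cls : ι ⊕ Tau (fun i => (b i).map ρ) →
      Option {x : Fin n × Fin n // x.1 < x.2},
      cls = Sum.elim (fun _ => none) (fun s => some ⟨(H.p s, H.q s), H.lt s⟩) := ⟨_, rfl⟩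
  have hcl1 : ∀ x : ι, cls (Sum.inl x) = none := fun x => by rw [hcls]; rfl
  have hcl2 : ∀ s, cls (Sum.inr s) = some ⟨(H.p s, H.q s), H.lt s⟩ := fun x => by rw [hcls]; rfl
  obtain ⟨κ', _, R', π, cls', hL, hcc, hfac0⟩ := hLIFT O k F ρ hρ _ _
    (RR (fun i => (b i).map ρ) T) hR cls f (by
      rintro (_ | x)
      · rw [hf]
        show IsUnit D.leadingCoeff
        rw [hD.leadingCoeff]
        exact isUnit_one
      · rw [hf]
        exact hlc _ _ (ne_of_lt x.2)) (by
      rintro (_ | ⟨⟨i, j⟩, hij⟩)
      · rw [hf]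
        show D.map ρ = C (ρ D.leadingCoeff) * _
        rw [hD.leadingCoeff, map_one, C_1, one_mul, hDT]
        have h1 : ∀ inst : DecidablePred (fun x => cls x = none),
            (@Finset.filter _ (fun x => cls x = none) inst univ) =
            (univ : Finset ι).map ⟨Sum.inl, Sum.inl_injective⟩ := by
          intro inst
          ext x
          rw [mem_filter, Finset.mem_map]
          constructor
          · rintro ⟨-, hx⟩
            rcases x with x | s
            · exact ⟨x, mem_univ _, rfl⟩
            · rw [hcl2] at hx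
              exact absurd hx (Option.some_ne_none _)
          · rintro ⟨x, -, rfl⟩
            exact ⟨mem_univ _, hcl1 x⟩
        rw [h1, prod_map]
        rfl
      · rw [hf]
        show (b i - b j).map ρ = C (ρ (b i - b j).leadingCoeff) * _
        have hij' : i < j := hij
        have h2 : (b i).map ρ - (b j).map ρ = _ := H.fac (ne_of_lt hij')
        rw [el, hsub, ← hsub, hlcρ i j (ne_of_lt hij'), hsub] at h2
        rw [h2]
        congr 1
        have h1 : ∀ inst : DecidablePred (fun x => cls x = some ⟨(i, j), hij⟩),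
            (@Finset.filter _ (fun x => cls x = some ⟨(i, j), hij⟩) inst univ) =
            (univ.filter fun s : Tau (fun i => (b i).map ρ) => H.p s = i ∧ H.q s = j).map
              ⟨Sum.inr, Sum.inr_injective⟩ := by
          intro inst
          ext x
          rw [mem_filter, Finset.mem_map]
          constructor
          · rintro ⟨-, hx⟩
            rcases x with x | s
            · rw [hcl1] at hx
              exact absurd hx.symm (Option.some_ne_none _)
            · rw [hcl2] at hx
              have h3 := congrArg Subtype.val (Option.some_injective _ hx)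
              refine ⟨s, mem_filter.2 ⟨mem_univ _, congrArg Prod.fst h3, congrArg Prod.snd h3⟩, rfl⟩
          · rintro ⟨s, hs, rfl⟩
            obtain ⟨-, h3, h4⟩ := mem_filter.1 hs
            refine ⟨mem_univ _, ?_⟩
            show cls (Sum.inr s) = _
            rw [hcl2]
            congr 1
            exact Subtype.ext (Prod.ext h3 h4)
        rw [h1, prod_map, prod_filter]
        refine prod_congr rfl fun s _ => ?_
        have h5 : QQ (fun i => (b i).map ρ) s ∣ (b i - b j).map ρ ↔
            ((H.p s = i ∧ H.q s = j) ∨ (H.p s = j ∧ H.q s = i)) := by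
          rw [← hsub]
          exact H.dvd_iff s (ne_of_lt hij')
        by_cases h6 : H.p s = i ∧ H.q s = j
        · rw [if_pos (h5.2 (Or.inl h6)), if_pos h6, pow_one]
          rfl
        · rw [if_neg, if_neg h6, pow_zero]
          intro h7
          rcases h5.1 h7 with h8 | h8
          · exact h6 h8
          · have := H.lt s
            rw [h8.1, h8.2] at this
            exact absurd hij (not_lt.2 this.le))
  have hfac : ∀ j, f j = C (f j).leadingCoeff *
      ∏ x' ∈ univ.filter (fun x' => cls' x' = j), R' x' := by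
    intro j
    convert hfac0 j
  have hQmon : ∀ x, ((R' x).map (algebraMap O k)).Monic := fun x => (hL.mon x).map _
  have hQinj : Function.Injective (fun x => (R' x).map (algebraMap O k)) :=
    (Polynomial.map_injective _ hkO).comp hL.inj
  have hsurj : Function.Surjective π := by
    intro x'
    by_contra hno
    push Not at hno
    have h1 := hL.red x'
    rw [filter_false_of_mem (fun x _ => hno x), prod_empty] at h1
    have h2 := (hL.mon x').natDegree_map ρ
    rw [h1, natDegree_one] at h2
    have h3 := (hL.irr x').natDegree_pos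
    rw [(hL.mon x').natDegree_map] at h3
    omega
  have hsep : ∀ (x : ι) (s : Tau (fun i => (b i).map ρ)), π (Sum.inl x) ≠ π (Sum.inr s) := by
    intro x s h
    have h1 := congrArg cls' h
    rw [hcc, hcc, hcl1, hcl2] at h1
    exact absurd h1.symm (Option.some_ne_none _)
  obtain ⟨ϖ, hϖ⟩ := IsDiscreteValuationRing.exists_irreducible O
  obtain ⟨S, hS1, hS2⟩ := hSYS ℓ O k F K H.S H.hlk ρ hρ ϖ hϖ ι (Tau (fun i => (b i).map ρ)) κ'
    (RR (fun i => (b i).map ρ) T) hR R' π hsurj hL hsep
  -- factorizations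
  have hDf : D = C 1 * ∏ x' ∈ univ.filter (fun x' => cls' x' = none), R' x' := by
    have h1 := hfac none
    rw [hf] at h1
    have h2 : D = C D.leadingCoeff * ∏ x' ∈ univ.filter (fun x' => cls' x' = none), R' x' := h1
    rw [hD.leadingCoeff] at h2
    exact h2
  obtain ⟨pr, hpr⟩ : ∃ pr : ∀ i j : Fin n, i ≠ j → {x : Fin n × Fin n // x.1 < x.2},
      pr = fun i j hij => if h : i < j then ⟨(i, j), h⟩ else ⟨(j, i), lt_of_le_of_ne (not_lt.1 h)
        hij.symm⟩ := ⟨_, rfl⟩
  have hbf : ∀ i j (hij : i ≠ j), b i - b j =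
      C (b i - b j).leadingCoeff * ∏ x' ∈ univ.filter (fun x' => cls' x' = some (pr i j hij)),
        R' x' := by
    intro i j hij
    rw [hpr]
    by_cases h : i < j
    · have h1 := hfac (some ⟨(i, j), h⟩)
      rw [hf] at h1
      simp only [dif_pos h]
      exact h1
    · have h1 := hfac (some ⟨(j, i), lt_of_le_of_ne (not_lt.1 h) hij.symm⟩)
      rw [hf] at h1
      simp only [dif_neg h]
      have h2 : b j - b i = C (b j - b i).leadingCoeff * _ := h1
      have h3 : b i - b j = -(b j - b i) := by ring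
      have h4 : (b i - b j).leadingCoeff = - (b j - b i).leadingCoeff := by
        rw [h3, leadingCoeff_neg]
      rw [h4, C_neg, neg_mul, ← h2, h3]
  have hprs : ∀ (s : Tau (fun i => (b i).map ρ)) i j (hij : i ≠ j),
      cls (Sum.inr s) = some (pr i j hij) ↔
        ((H.p s = i ∧ H.q s = j) ∨ (H.p s = j ∧ H.q s = i)) := by
    intro s i j hij
    have hlt := H.lt s
    rw [hcl2, hpr]
    by_cases h : i < j
    · simp only [dif_pos h]
      constructor
      · intro h1
        have h3 := congrArg Subtype.val (Option.some_injective _ h1)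
        exact Or.inl ⟨congrArg Prod.fst h3, congrArg Prod.snd h3⟩
      · rintro (⟨h1, h2⟩ | ⟨h1, h2⟩)
        · congr 1
          exact Subtype.ext (Prod.ext h1 h2)
        · rw [h1, h2] at hlt
          exact absurd h (not_lt.2 hlt.le)
    · simp only [dif_neg h]
      constructor
      · intro h1
        have h3 := congrArg Subtype.val (Option.some_injective _ h1)
        exact Or.inr ⟨congrArg Prod.fst h3, congrArg Prod.snd h3⟩
      · rintro (⟨h1, h2⟩ | ⟨h1, h2⟩)
        · rw [h1, h2] at hlt
          exact absurd hlt h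
        · congr 1
          exact Subtype.ext (Prod.ext h1 h2)
  -- over `k`
  have hprodk : ∀ (r : O) (A : Finset κ'), (C r * ∏ x' ∈ A, R' x').map (algebraMap O k) =
      C (algebraMap O k r) * ∏ x' ∈ A, (R' x').map (algebraMap O k) := by
    intro r A
    rw [Polynomial.map_mul, map_C, Polynomial.map_prod]
  have hδk : D0.δ = algebraMap k[X] K (C 1 *
      ∏ x' ∈ univ.filter (fun x' => cls' x' = none), (R' x').map (algebraMap O k)) := by
    rw [hδ, hDf, hprodk, map_one]
  have hek : ∀ i j (hij : i ≠ j), D0.e i - D0.e j =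
      algebraMap k[X] K (C (algebraMap O k (b i - b j).leadingCoeff) *
        ∏ x' ∈ univ.filter (fun x' => cls' x' = some (pr i j hij)), (R' x').map (algebraMap O k)) := by
    intro i j hij
    rw [he, he, ← map_sub, ← Polynomial.map_sub, ← hprodk, ← hbf]
  have hlk0 : ∀ i j, i ≠ j → algebraMap O k (b i - b j).leadingCoeff ≠ 0 := fun i j hij =>
    ((hlc i j hij).map _).ne_zero
  have hRp : ∀ (r : O) (A : Finset κ'), ρ r ≠ 0 → Rp ℓ k K ρ ϖ R' π
      (algebraMap k[X] K (C (algebraMap O k r) * ∏ x' ∈ A, (R' x').map (algebraMap O k))) 0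
      (ch ℓ (ρ r)) (fun x => if π x ∈ A then 1 else 0) := by
    intro r A hr
    refine ⟨0, r, fun x' => if x' ∈ A then 1 else 0, 1, hr, one_ne_zero, by simp, rfl, ?_, ?_⟩
    · intro x
      show (((if π x ∈ A then 1 else 0 : ℕ)) : ZMod ℓ) = if π x ∈ A then 1 else 0
      by_cases h : π x ∈ A
      · rw [if_pos h, if_pos h, Nat.cast_one]
      · rw [if_neg h, if_neg h, Nat.cast_zero]
    · rw [one_pow, mul_one, pow_zero, one_mul, ← hprodk]
      congr 3
      rw [← prod_filter_mul_prod_filter_not univ (fun x' => x' ∈ A)]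
      have h1 : ∏ x' ∈ univ.filter (fun x' => x' ∉ A), R' x' ^ (if x' ∈ A then 1 else 0) = 1 :=
        prod_eq_one fun x' hx => by rw [if_neg (mem_filter.1 hx).2, pow_zero]
      rw [h1, mul_one, filter_univ_mem]
      refine prod_congr rfl fun x' hx => ?_
      show R' x' = R' x' ^ (if x' ∈ A then 1 else 0)
      rw [if_pos hx, pow_one]
  refine ⟨S, ⟨?_, ?_, ?_, ?_, ?_, ?_, ?_, ?_, ?_, ?_⟩⟩
  · -- twist
    rw [hS1, hδk]
    have h1 := hRp 1 (univ.filter (fun x' => cls' x' = none)) (by rw [map_one]; exact one_ne_zero)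
    rw [map_one (algebraMap O k), map_one ρ, ch_one H.S] at h1
    have h2 : (fun x => if π x ∈ univ.filter (fun x' => cls' x' = none) then (1 : ZMod ℓ) else 0) =
        Sum.elim (fun _ => 1) (fun _ => 0) := by
      funext x
      rcases x with x | s
      · rw [if_pos (mem_filter.2 ⟨mem_univ _, by rw [hcc, hcl1]⟩)]
        rfl
      · rw [if_neg]
        · rfl
        · intro h
          have h3 := (mem_filter.1 h).2
          rw [hcc, hcl2] at h3
          exact absurd h3 (Option.some_ne_none _)
    rw [h2] at h1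
    exact h1
  · -- diff
    intro i j hij
    rw [hS1, hek i j hij]
    have h1 := hRp (b i - b j).leadingCoeff
      (univ.filter (fun x' => cls' x' = some (pr i j hij))) (hρlc i j hij)
    have h3 : ch ℓ (ρ (b i - b j).leadingCoeff) = H.comb.c i j := by
      rw [← hlcρ i j hij]
      rfl
    rw [h3] at h1
    have h2 : (fun x => if π x ∈ univ.filter (fun x' => cls' x' = some (pr i j hij)) then
        (1 : ZMod ℓ) else 0) = Sum.elim (fun _ => 0) (fun s => mu ℓ H.p H.q i j s) := by
      funext x
      rcases x with x | s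
      · rw [if_neg]
        · rfl
        · intro h
          have h3 := (mem_filter.1 h).2
          rw [hcc, hcl1] at h3
          exact absurd h3.symm (Option.some_ne_none _)
      · show _ = mu ℓ H.p H.q i j s
        rw [mu]
        by_cases h : (H.p s = i ∧ H.q s = j) ∨ (H.p s = j ∧ H.q s = i)
        · rw [if_pos h, if_pos (mem_filter.2 ⟨mem_univ _, by rw [hcc]; exact (hprs s i j hij).2 h⟩)]
        · rw [if_neg h, if_neg]
          intro h3
          have h4 := (mem_filter.1 h3).2
          rw [hcc] at h4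
          exact h ((hprs s i j hij).1 h4)
    rw [h2] at h1
    exact h1
  · -- vT
    intro x
    rw [hS2, hδk]
    exact val_prod_exp hL.irr hQmon hQinj one_ne_zero _
      (mem_filter.2 ⟨mem_univ _, by rw [hcc, hcl1]⟩)
  · -- vTd
    intro x i j hij
    rw [hS2, hek i j hij]
    refine val_prod_hp hL.irr hQmon hQinj (hlk0 i j hij) _ ?_
    intro h
    have h3 := (mem_filter.1 h).2
    rw [hcc, hcl1] at h3
    exact absurd h3.symm (Option.some_ne_none _)
  · -- vN
    intro s
    rw [hS2, hδk]
    refine val_prod_hp hL.irr hQmon hQinj one_ne_zero _ ?_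
    intro h
    have h3 := (mem_filter.1 h).2
    rw [hcc, hcl2] at h3
    exact absurd h3 (Option.some_ne_none _)
  · -- vNd
    intro s
    have hne := ne_of_lt (H.lt s)
    rw [hS2, hek _ _ hne]
    refine val_prod_exp hL.irr hQmon hQinj (hlk0 _ _ hne) _ (mem_filter.2 ⟨mem_univ _, ?_⟩)
    rw [hcc]
    exact (hprs s _ _ hne).2 (Or.inl ⟨rfl, rfl⟩)
  · -- vNo
    intro s i j hij h1 h2
    rw [hS2, hek _ _ hij]
    refine val_prod_hp hL.irr hQmon hQinj (hlk0 _ _ hij) _ ?_
    intro h
    have h3 := (mem_filter.1 h).2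
    rw [hcc] at h3
    rcases (hprs s _ _ hij).1 h3 with ⟨h4, h5⟩ | ⟨h4, h5⟩
    · exact h1 ⟨h4.symm, h5.symm⟩
    · exact h2 ⟨h5.symm, h4.symm⟩
  · -- vG
    intro v hv
    rw [hδk]
    refine val_prod_one one_ne_zero _ ?_
    intro x' _ hm
    obtain ⟨y, rfl⟩ := hsurj x'
    exact hv y (by rw [hS2]; exact eq_hp _ hm)
  · -- vGd
    intro v hv i j hij
    rw [hek _ _ hij]
    refine val_prod_one (hlk0 _ _ hij) _ ?_
    intro x' _ hm
    obtain ⟨y, rfl⟩ := hsurj x'
    exact hv y (by rw [hS2]; exact eq_hp _ hm)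
  · -- vl
    intro v
    have h1 : ((ℓ : ℕ) : O) ≠ 0 := by
      intro h
      apply H.hlk
      rw [← map_natCast ρ, h, map_zero]
    have h2 : ((ℓ : ℕ) : k) ≠ 0 := by
      intro h
      apply h1
      apply hkO
      rw [map_natCast, h, map_zero]
    have h3 : ((ℓ : ℕ) : K) = algebraMap k[X] K (C ((ℓ : ℕ) : k)) := by
      rw [C_eq_natCast, map_natCast]
    rw [h3]
    exact val_C h2

end Pool.Agent.Y164.NZ
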