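import Pool.Agent.Y164.NZ.Stm

/-!
Statements of lemmas (project NZ), continued.
-/

set_option autoImplicit false
set_option linter.all false

open Polynomial IsDedekindDomain NumberField
open scoped Classical

namespace Pool.Agent.Y164.NZ

open Finset Filter
open Pool.Agent.Y164.SZ
open Pool.Agent.Y713.SE (hp Pw)
open Pool.Agent.Y164.PS (Fam)
open Pool.Agent.Y164.HG (tw)

/-- NZ-LINK: the link for lifts of a curve over `F(t)` -/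
def S_LINK : Prop :=
  ∀ (ℓ : ℕ) [Fact ℓ.Prime] (O k F : Type) [CommRing O] [IsDomain O] [IsDiscreteValuationRing O]
    [Field k] [Algebra O k] [IsFractionRing O k] [Field F] [Fintype F] [DecidableEq F]
    (K : Type) [Field K] [Algebra k[X] K] [IsFractionRing k[X] K]
    (ρ : O →+* F) (_ : Function.Surjective ρ) (n : ℕ) (b : Fin n → O[X]) (N : ℕ)
    (H : Geo ℓ (fun i => (b i).map ρ) N)
    (_ : ∀ i j, i ≠ j → IsUnit (b i - b j).leadingCoeff)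
    (D : O[X]) (_ : D.Monic) (ι : Type) [Fintype ι] (T : ι → F[X])
    (_ : Fam (RR (fun i => (b i).map ρ) T)) (_ : D.map ρ = ∏ i, T i) (D0 : Y713.SE.Dat ℓ n K)
    (_ : D0.δ = algebraMap k[X] K (D.map (algebraMap O k)))
    (_ : ∀ i, D0.e i = algebraMap k[X] K ((b i).map (algebraMap O k))),
    ∃ S : Sys ℓ k K (RR (fun i => (b i).map ρ) T), Link H T S D0

/-- NZ-FGEN: the proportion, for a general property -/
def S_FGEN : Prop :=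
  ∀ (ℓ : ℕ) [Fact ℓ.Prime] (_ : ℓ ≠ 2) (F : Type) [Field F] [Fintype F] [DecidableEq F]
    (_ : (2 : F) ≠ 0) (_ : ℓ ∣ Fintype.card F - 1) (n : ℕ) (_ : ¬ ℓ ∣ n) (_ : 3 ≤ n) (N : ℕ)
    (_ : 1 ≤ N) (a : Fin n → F[X]) (_ : ∀ i j, i ≠ j → (a i - a j).natDegree = N)
    (_ : Squarefree (Dif a)) (P : F[X] → Prop)
    (_ : ∀ (H : Geo ℓ a N) (σ : Tau a → ZMod ℓ), Imp (H.dat σ) (QQ a) P) (ε : ℝ) (_ : 0 < ε),
    ∀ᶠ m : ℕ in atTop, ¬ ℓ ∣ m + n * N →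
      (∏' i : ℕ, (1 + ((ℓ : ℝ)⁻¹) ^ (i + 1))⁻¹ - ε) * ((tw a m).ncard : ℝ) ≤
        (({E ∈ tw a m | P E}).ncard : ℝ)

/-- NZ-UNI: over a large field at least half of the polynomials are in the family -/
def S_UNI : Prop :=
  ∀ (F : Type) [Field F] [Fintype F] [DecidableEq F] (n : ℕ) (a : Fin n → F[X])
    (_ : ∀ i j, i ≠ j → a i ≠ a j) (_ : 8 * ((Dif a).natDegree + 1) ≤ Fintype.card F) (m : ℕ),
    (Fintype.card F) ^ m ≤ 2 * (tw a m).ncard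

/-- NZ-CNT: combination of finitely many primes -/
def S_CNT : Prop :=
  ∀ (A : Type) [CommRing A] (r : ℕ) (_ : 1 ≤ r) (I : Fin r → Ideal A) (_ : ∀ i, (I i).IsMaximal)
    (_ : ∀ i j, i ≠ j → I i ≠ I j) (_ : ∀ i, Finite (A ⧸ I i)) (m : ℕ)
    (G : ∀ i, Set (A ⧸ I i)[X]) (c : ℝ) (_ : 0 ≤ c) (_ : c ≤ 1)
    (_ : ∀ i, c * (Nat.card (A ⧸ I i) : ℝ) ^ m ≤
      (({E : (A ⧸ I i)[X] | E.Monic ∧ E.natDegree = m ∧ E ∈ G i}).ncard : ℝ)),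
    (1 - (1 - c) ^ r) * (Nat.card (A ⧸ (⨅ i, I i)) : ℝ) ^ m ≤
      (({E : (A ⧸ (⨅ i, I i))[X] | E.Monic ∧ E.natDegree = m ∧ ∃ i, ∀ D : A[X],
        D.map (Ideal.Quotient.mk (⨅ i, I i)) = E → D.map (Ideal.Quotient.mk (I i)) ∈ G i}).ncard : ℝ)

/-- NZ-NF: good primes of a number field -/
def S_NF : Prop :=
  ∀ (ℓ : ℕ) (_ : ℓ.Prime) (k : Type) [Field k] [NumberField k] (ζ : k) (_ : IsPrimitiveRoot ζ ℓ)
    (n N : ℕ) (_ : 1 ≤ N) (b : Fin n → (𝓞 k)[X])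
    (_ : ∀ i j, i ≠ j → (b i - b j).natDegree = N)
    (_ : Squarefree ((Dif b).map (algebraMap (𝓞 k) k))) (X : ℕ),
    {P : HeightOneSpectrum (𝓞 k) | Finite (𝓞 k ⧸ P.asIdeal) ∧ X ≤ Nat.card (𝓞 k ⧸ P.asIdeal) ∧
      (2 : 𝓞 k) ∉ P.asIdeal ∧ ℓ ∣ Nat.card (𝓞 k ⧸ P.asIdeal) - 1 ∧
      (∀ i j, i ≠ j → (b i - b j).leadingCoeff ∉ P.asIdeal) ∧
      Squarefree ((Dif b).map (Ideal.Quotient.mk P.asIdeal))}.Infinite

end Pool.Agent.Y164.NZ
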