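import Pool.Agent.Y164.SZ.Stm2
import Pool.Agent.Y164.SZ.Def
import Pool.Agent.Y164.HG.Cla

/-!
Definitions and statements of lemmas (project NZ: the twists `y ^ ℓ = D ∏ (x - a i)` over `k(t)`, where
`k` is the fraction field of a discrete valuation ring `O` with finite residue field `F`, by reduction
of the descent to `F(t)`).
-/

set_option autoImplicit false
set_option linter.all false

open Polynomial IsDedekindDomain
open scoped Classical

namespace Pool.Agent.Y164.NZ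

open Finset Filter
open Pool.Agent.Y164.SZ
open Pool.Agent.Y713.SE (hp Pw)
open Pool.Agent.Y713.SE.Dat (au)
open Pool.Agent.Y164.PS (Fam)
open Pool.Agent.Y164.HG (tw)

section sys
variable (ℓ : ℕ) (k K : Type) [Field k] [Field K] [Algebra k[X] K] [IsFractionRing k[X] K]
variable {F : Type} [Field F] [Fintype F] [DecidableEq F] {ι τ : Type} [Fintype ι] [Fintype τ]

/-- A calculus of elements of `K = k(t)` modulo `ℓ`-th powers, with exponents at the prime polynomials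
`R y` over the residue field `F` (`pl y` is a place of `k(t)` over which `R y` lies), the symbol `c` of
the constant and the valuation `ω` of the constant. -/
structure Sys (R : ι ⊕ τ → F[X]) where
  rep : K → ZMod ℓ → ZMod ℓ → (ι ⊕ τ → ZMod ℓ) → Prop
  pl : ι ⊕ τ → HeightOneSpectrum k[X]
  ne : ∀ {d : K} {ω c : ZMod ℓ} {u : ι ⊕ τ → ZMod ℓ}, rep d ω c u → d ≠ 0
  one : rep 1 0 0 0
  mul : ∀ {d d' : K} {ω ω' c c' : ZMod ℓ} {u u' : ι ⊕ τ → ZMod ℓ}, rep d ω c u → rep d' ω' c' u' →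
    rep (d * d') (ω + ω') (c + c') (fun x => u x + u' x)
  pow_mul : ∀ {d : K} {ω c : ZMod ℓ} {u : ι ⊕ τ → ZMod ℓ} {z : K}, rep d ω c u → z ≠ 0 →
    rep (z ^ ℓ * d) ω c u
  val : ∀ {d : K} {ω c : ZMod ℓ} {u : ι ⊕ τ → ZMod ℓ}, rep d ω c u → ∀ y,
    Pw ℓ ((pl y).valuation K d) → u y = 0
  loc : ∀ {d : K} {ω c : ZMod ℓ} {u : ι ⊕ τ → ZMod ℓ}, rep d ω c u → ∀ y,
    (∃ z : (pl y).adicCompletion K, algebraMap K _ d = z ^ ℓ) →
      ω = 0 ∧ u y = 0 ∧ ∑ x, u x * L ℓ (R x) (R y) + ((R y).natDegree : ZMod ℓ) * c = 0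
  exi : ∀ d : K, d ≠ 0 → (∀ v : HeightOneSpectrum k[X], (∀ y, v ≠ pl y) →
    Pw ℓ (v.valuation K d)) → ∃ ω c u, rep d ω c u
  glo : ∀ d : K, rep d 0 0 0 →
    (∀ y : ι, ∃ z : (pl (Sum.inl y)).adicCompletion K, algebraMap K _ d = z ^ ℓ) →
    IsUnit (∑ y : ι, ((R (Sum.inl y)).natDegree : ZMod ℓ)) → ∃ z : K, d = z ^ ℓ

end sys

/-- The link of a calculus with the data of the curve. -/
structure Link {ℓ : ℕ} [Fact ℓ.Prime] {k K : Type} [Field k] [Field K] [Algebra k[X] K]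
    [IsFractionRing k[X] K] {F : Type} [Field F] [Fintype F] [DecidableEq F] {n : ℕ}
    {a : Fin n → F[X]} {N : ℕ} (H : Geo ℓ a N) {ι : Type} [Fintype ι] (T : ι → F[X])
    (S : Sys ℓ k K (RR a T)) (D0 : Y713.SE.Dat ℓ n K) : Prop where
  twist : S.rep D0.δ 0 0 (Sum.elim (fun _ => 1) (fun _ => 0))
  diff : ∀ i j, i ≠ j → S.rep (D0.e i - D0.e j) 0 (H.comb.c i j)
    (Sum.elim (fun _ => 0) (fun s => mu ℓ H.p H.q i j s))
  vT : ∀ x : ι, (S.pl (Sum.inl x)).valuation K D0.δ = WithZero.exp (-1 : ℤ)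
  vTd : ∀ (x : ι) (i j : Fin n), i ≠ j → (S.pl (Sum.inl x)).valuation K (D0.e i - D0.e j) = 1
  vN : ∀ s : Tau a, (S.pl (Sum.inr s)).valuation K D0.δ = 1
  vNd : ∀ s : Tau a, (S.pl (Sum.inr s)).valuation K (D0.e (H.p s) - D0.e (H.q s)) =
    WithZero.exp (-1 : ℤ)
  vNo : ∀ (s : Tau a) (i j : Fin n), i ≠ j → ¬ (i = H.p s ∧ j = H.q s) →
    ¬ (i = H.q s ∧ j = H.p s) → (S.pl (Sum.inr s)).valuation K (D0.e i - D0.e j) = 1
  vG : ∀ v : HeightOneSpectrum k[X], (∀ y, v ≠ S.pl y) → v.valuation K D0.δ = 1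
  vGd : ∀ v : HeightOneSpectrum k[X], (∀ y, v ≠ S.pl y) → ∀ i j : Fin n, i ≠ j →
    v.valuation K (D0.e i - D0.e j) = 1
  vl : ∀ v : HeightOneSpectrum k[X], v.valuation K ((ℓ : ℕ) : K) = 1

/-- NZ-ABS: the criterion, abstract form -/
def S_ABS : Prop :=
  ∀ (ℓ : ℕ) [Fact ℓ.Prime] (k K : Type) [Field k] [Field K] [Algebra k[X] K]
    [IsFractionRing k[X] K] (F : Type) [Field F] [Fintype F] [DecidableEq F] (n : ℕ)
    (a : Fin n → F[X]) (N : ℕ) (H : Geo ℓ a N) (ι : Type) [Fintype ι] (T : ι → F[X])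
    (_ : Fam (RR a T)) (S : Sys ℓ k K (RR a T)) (D0 : Y713.SE.Dat ℓ n K) (_ : Link H T S D0)
    (σ : Tau a → ZMod ℓ) (_ : cl (H.dat σ) (QQ a) T)
    (_ : IsUnit (∑ i, ((T i).natDegree : ZMod ℓ) + (n : ZMod ℓ) * (N : ZMod ℓ)))
    (_ : IsUnit (∑ i, ((T i).natDegree : ZMod ℓ)))
    (_ : Triv (H.dat σ) (AT ℓ T) (BT ℓ (QQ a) T) (fun i => ((T i).natDegree : ZMod ℓ)))
    (E : Type) [Field E] [Algebra K E] [IsGalois K E] [IsSepClosed E] (p : ℕ) [ExpChar E p]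
    (Ω : HeightOneSpectrum k[X] → Type) [∀ v, Field (Ω v)]
    [∀ v, Algebra (v.adicCompletion K) (Ω v)] [∀ v, Algebra K (Ω v)]
    [∀ v, IsScalarTower K (v.adicCompletion K) (Ω v)] [∀ v, IsSepClosed (Ω v)]
    [∀ v, IsGalois (v.adicCompletion K) (Ω v)] [∀ v, ExpChar (Ω v) p]
    (χ : (E ≃ₐ[K] E) → Fin n → ℕ) (_ : D0.Coc (fun τ => Y713.SE.cl ((D0.base E).PT (χ τ))))
    (_ : ∀ v, D0.Triv (v.adicCompletion K) (Ω v) (fun τ => Y713.SE.cl ((D0.base E).PT (χ τ)))),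
    ∃ (m : Fin n → ℕ) (Q : ClassGroup (D0.base E).A),
      Y713.SE.cl ((D0.base E).PT m) * (D0.base E).sC Q = Q ∧
      ∀ τ, Y713.SE.cl ((D0.base E).PT (χ τ)) = D0.mC (au τ) Q / Q

section dvr

/-- The family `R'` of monic irreducible polynomials over `k`, with coefficients in `O`, lies over the
family `R` of polynomials over `F`. -/
structure Lft {O F : Type} (k : Type) [CommRing O] [Field k] [Algebra O k] [Field F] (ρ : O →+* F)
    {κ κ' : Type} [Fintype κ] [Fintype κ'] (R : κ → F[X]) (R' : κ' → O[X]) (π : κ → κ') : Prop where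
  mon : ∀ x, (R' x).Monic
  irr : ∀ x, Irreducible ((R' x).map (algebraMap O k))
  inj : Function.Injective R'
  red : ∀ x', (R' x').map ρ = ∏ x ∈ univ.filter (fun x => π x = x'), R x

/-- NZ-LIFT: factorization over `k` of polynomials with squarefree reduction -/
def S_LIFT : Prop :=
  ∀ (O k F : Type) [CommRing O] [IsDomain O] [IsDiscreteValuationRing O] [Field k] [Algebra O k]
    [IsFractionRing O k] [Field F] (ρ : O →+* F) (_ : Function.Surjective ρ)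
    (κ J : Type) [Fintype κ] [Fintype J] (R : κ → F[X]) (_ : Fam R) (cls : κ → J) (f : J → O[X]),
    (∀ j, IsUnit (f j).leadingCoeff) →
    (∀ j, (f j).map ρ = C (ρ (f j).leadingCoeff) * ∏ x ∈ univ.filter (fun x => cls x = j), R x) →
    ∃ (κ' : Type) (_ : Fintype κ') (R' : κ' → O[X]) (π : κ → κ') (cls' : κ' → J),
      Lft k ρ R R' π ∧ (∀ x, cls' (π x) = cls x) ∧
      ∀ j, f j = C (f j).leadingCoeff * ∏ x' ∈ univ.filter (fun x' => cls' x' = j), R' x'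

/-- NZ-RED: `ℓ`-th powers modulo a prime polynomial with squarefree reduction -/
def S_RED : Prop :=
  ∀ (O k F : Type) [CommRing O] [IsDomain O] [IsDiscreteValuationRing O] [Field k] [Algebra O k]
    [IsFractionRing O k] [Field F] [Finite F] (ρ : O →+* F) (_ : Function.Surjective ρ)
    (ℓ : ℕ) (_ : ℓ ≠ 0) (P G : O[X]), P.Monic → Irreducible (P.map (algebraMap O k)) →
    Squarefree (P.map ρ) →
    (∃ h : k[X], P.map (algebraMap O k) ∣ h ^ ℓ - G.map (algebraMap O k)) →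
    ∃ h : O[X], P ∣ h ^ ℓ - G

/-- the representations modulo `ℓ`-th powers -/
def Rp {O F : Type} (ℓ : ℕ) (k K : Type) [CommRing O] [Field k] [Algebra O k] [Field F]
    [Fintype F] [DecidableEq F] [Field K] [Algebra k[X] K] (ρ : O →+* F) (ϖ : O)
    {κ κ' : Type} [Fintype κ] [Fintype κ'] (R' : κ' → O[X]) (π : κ → κ')
    (d : K) (ω c : ZMod ℓ) (u : κ → ZMod ℓ) : Prop :=
  ∃ (e : ℕ) (r : O) (n : κ' → ℕ) (y : K), ρ r ≠ 0 ∧ y ≠ 0 ∧ (e : ZMod ℓ) = ω ∧ ch ℓ (ρ r) = c ∧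
    (∀ x, (n (π x) : ZMod ℓ) = u x) ∧
    d = algebraMap k[X] K ((C (ϖ ^ e * r) * ∏ x', R' x' ^ n x').map (algebraMap O k)) * y ^ ℓ

/-- NZ-SYS: the calculus attached to a family -/
def S_SYS : Prop :=
  ∀ (ℓ : ℕ) [Fact ℓ.Prime] (O k F : Type) [CommRing O] [IsDomain O] [IsDiscreteValuationRing O]
    [Field k] [Algebra O k] [IsFractionRing O k] [Field F] [Fintype F] [DecidableEq F]
    (K : Type) [Field K] [Algebra k[X] K] [IsFractionRing k[X] K] (_ : SYM0 ℓ F)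
    (_ : ((ℓ : ℕ) : F) ≠ 0)
    (ρ : O →+* F) (_ : Function.Surjective ρ) (ϖ : O) (_ : Irreducible ϖ)
    (ι τ κ' : Type) [Fintype ι] [Fintype τ] [Fintype κ'] (R : ι ⊕ τ → F[X]) (_ : Fam R)
    (R' : κ' → O[X]) (π : ι ⊕ τ → κ') (_ : Function.Surjective π) (hL : Lft k ρ R R' π)
    (_ : ∀ (x : ι) (y : τ), π (Sum.inl x) ≠ π (Sum.inr y)),
    ∃ S : Sys ℓ k K R, S.rep = Rp ℓ k K ρ ϖ R' π ∧
      ∀ y, S.pl y = hp ((R' (π y)).map (algebraMap O k)) (hL.irr (π y))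

/-- the product of the differences of the `b i` -/
noncomputable def Dif {A : Type} [CommRing A] {n : ℕ} (b : Fin n → A[X]) : A[X] :=
  ∏ x ∈ (univ : Finset (Fin n × Fin n)).filter (fun x => x.1 < x.2), (b x.1 - b x.2)

end dvr

end Pool.Agent.Y164.NZ
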