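import Pool.Agent.Y164.NZ.Fin3
import Pool.Agent.Y164.NZ.Lnk
import Pool.Agent.Y664.NZ.Lift
import Pool.Agent.Y141.NZ.Sys
import Pool.Agent.Y850.NZ.Red
import Pool.Agent.Y86.NZ.Fgen
import Pool.Agent.Y785.NZ.Uni
import Pool.Agent.Y188.NZ.Cnt
import Pool.Agent.Y665.NZ.NF
import Pool.Agent.Y710.NZ.Abs
import Pool.Agent.Y43.SZ2.Crit
import Pool.Agent.Y43.SZ2.Eqs
import Pool.Agent.Y547.SZ.Comb
import Pool.Agent.Y547.SZ.Kda
import Pool.Agent.Y547.SZ.Rep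
import Pool.Agent.Y98.SZ.Adj

/-!
The theorem for number fields: the lemmas.
-/

set_option autoImplicit false
set_option linter.all false

open Polynomial IsDedekindDomain NumberField
open scoped Classical

namespace Pool.Agent.Y164.NZ

open Finset Filter
open Pool.Agent.Y164.SZ
open Pool.Agent.TH115.GD (IsTower)

theorem c_crit : S_CRIT :=
  Pool.Agent.Y43.SZ2.t Pool.Agent.Y547.SZ.Rep.t Pool.Agent.Y98.SZ.Adj.t
      Pool.Agent.Y547.SZ.t_kda (Pool.Agent.Y43.SZ2.e1 Pool.Agent.Y547.SZ.Rep.t)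
      (Pool.Agent.Y43.SZ2.e2 Pool.Agent.Y547.SZ.Rep.t)

theorem c_link : S_LINK :=
  link Pool.Agent.Y664.NZ.t (Pool.Agent.Y141.NZ.t Pool.Agent.Y850.NZ.t)

end Pool.Agent.Y164.NZ
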