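import Pool.Agent.Y164.NZ.Stm
import Pool.Agent.Y713.TG.StmB

/-!
Statements of lemmas (project NZ, second part): Tate classes of the twists
`y ^ ℓ = ∏ (x - P ^ u * b i)` over `K = k(t)` (isomorphic to `y ^ ℓ = P ∏ (x - b i)` if `n u ≡ 1 mod ℓ`), `k` a
field of characteristic zero, by descent with the second layer.

Notation as in `Pool.Agent.Y713.SE`: `D : Dat ℓ n K` are the data of the curve, `F = k'(t)`, `k'` an
algebraic closure of `k`, `Ω` an algebraic closure of `F`, the group of the points of the Jacobian over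
`Ω` is the class group of `(D.base Ω).A`, written multiplicatively; `cl (PT m)` are the points of order
`1 - s`, `phi` is `1 - s`, `mC φ` is the action of an automorphism `φ`.
-/

set_option autoImplicit false
set_option linter.all false

open Polynomial IsDedekindDomain
open scoped Classical

namespace Pool.Agent.Y164.NZ

open Pool.Agent.Y713.SE
open Pool.Agent.Y713.SE.Dat
open Pool.Agent.TH115.GD (pl Comp Sep)
open Pool.Agent.Y164.SZ (Tm)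

/-- NZT-RRT: the Kummer data over `F` of the class of a point of order `1 - s` -/
def S_RRT : Prop :=
  ∀ (ℓ n : ℕ) (K F Ω : Type) [Field K] [Field F] [Algebra K F] [Field Ω] [Algebra F Ω] [Algebra K Ω]
    [IsScalarTower K F Ω] [IsGalois F Ω] (D : Dat ℓ n K), ℓ ≠ 2 →
    ∀ (χ : (Ω ≃ₐ[F] Ω) → Fin n → ℕ) (kd : D.KF χ) (m : Fin n → ℕ) (Q : ClassGroup (D.base Ω).A),
    cl ((D.base Ω).PT m) * (D.base Ω).sC Q = Q →
    (∀ σ, cl ((D.base Ω).PT (χ σ)) = D.mC (rs K σ) Q / Q) →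
    ∀ i j, ∃ x : F, x ≠ 0 ∧
      kd.d i j * algebraMap K F (Tm D m i) = x ^ ℓ * algebraMap K F (Tm D m j)

section defs
variable {ℓ n : ℕ} {k K : Type} [Field k] [Field K] [Algebra k[X] K]

/-- the geometric hypotheses -/
structure Gm (D : Dat ℓ n K) (P : k[X]) (u : ℕ) (b : Fin n → k[X]) : Prop where
  hδ : D.δ = 1
  he : ∀ i, D.e i = algebraMap k[X] K (P ^ u * b i)
  hu : ¬ ℓ ∣ u
  mon : P.Monic
  sq : Squarefree P
  cop : ∀ i j, i ≠ j → IsCoprime P (b i - b j)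
  deg : ¬ ℓ ∣ P.natDegree
  two : ℓ ≠ 2

end defs

section tow
variable {ℓ n : ℕ} {K F Ω : Type} [Field K] [Field F] [Algebra K F] [Field Ω] [Algebra F Ω]
  [Algebra K Ω] [IsScalarTower K F Ω] (D : Dat ℓ n K)

/-- the conjugate of `z` under `τ` differs from `z` by the coboundary of `A` -/
def Rel (z : (Ω ≃ₐ[F] Ω) → ClassGroup (D.base Ω).A) (τ : Ω ≃ₐ[K] Ω)
    (A : ClassGroup (D.base Ω).A) : Prop :=
  ∀ σ σ' : Ω ≃ₐ[F] Ω, (∀ x, τ (σ' x) = σ (τ x)) →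
    D.mC (au τ) (z σ') = z σ * (D.mC (rs K σ) A / A)

/-- a second layer: a cocycle with values in the points of order `(1 - s) ^ 2` whose image under
`1 - s` is locally trivial, and whose class is fixed by the Galois group of `K` -/
structure Sec (k' : Type) [Field k'] [Algebra k'[X] F] [IsFractionRing k'[X] F]
    (z : (Ω ≃ₐ[F] Ω) → ClassGroup (D.base Ω).A) : Prop where
  coc : D.CocF z
  two : ∀ σ, (D.base Ω).phi ((D.base Ω).phi (z σ)) = 1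
  triv : ∀ v : HeightOneSpectrum k'[X], D.TrivF (Comp k'[X] F v) (Sep (Comp k'[X] F v))
    (fun σ => (D.base Ω).phi (z σ))
  inv : ∀ τ : Ω ≃ₐ[K] Ω, ∃ A, Rel D z τ A ∧ (D.base Ω).phi ((D.base Ω).phi A) = 1

/-- the extension of the first layer `phi ∘ z` to the Galois group of `K` -/
structure Ex (z : (Ω ≃ₐ[F] Ω) → ClassGroup (D.base Ω).A) (χ : (Ω ≃ₐ[K] Ω) → Fin n → ℕ) : Prop where
  coc : D.Coc (fun τ => cl ((D.base Ω).PT (χ τ)))
  rel : ∀ τ, ∃ A, Rel D z τ A ∧ (D.base Ω).phi ((D.base Ω).phi A) = 1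
  val : ∀ τ A, Rel D z τ A → (D.base Ω).phi ((D.base Ω).phi A) = 1 →
    (D.base Ω).phi A = cl ((D.base Ω).PT (χ τ))
  res : ∀ (σ : Ω ≃ₐ[F] Ω) (σ₁ : Ω ≃ₐ[K] Ω), (∀ x, σ₁ x = σ x) →
    (D.base Ω).phi (z σ) = cl ((D.base Ω).PT (χ σ₁))

end tow

/-- the inclusion of the constants on the coefficients -/
def HKF (k k' K F : Type) [Field k] [Field k'] [Algebra k k'] [Field K] [Algebra k[X] K] [Field F]
    [Algebra k'[X] F] [Algebra K F] : Prop :=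
  ∀ p : k[X], algebraMap K F (algebraMap k[X] K p) = algebraMap k'[X] F (p.map (algebraMap k k'))

/-- NZT-FIX: there are no new points of order `(1 - s) ^ 2` over `F` -/
def S_FIX : Prop :=
  ∀ (ℓ n : ℕ) (k k' K F Ω : Type) [Field k] [CharZero k] [Field k'] [Algebra k k']
    [IsSepClosure k k'] [Field K] [Algebra k[X] K] [IsFractionRing k[X] K] [Field F]
    [Algebra k'[X] F] [IsFractionRing k'[X] F] [Algebra K F] [Field Ω] [Algebra F Ω] [Algebra K Ω]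
    [IsScalarTower K F Ω] [IsSepClosure F Ω] [IsGalois F Ω] [IsGalois K Ω] [IsSepClosed Ω]
    (_ : HKF k k' K F) (D : Dat ℓ n K) (P : k[X]) (u : ℕ) (b : Fin n → k[X])
    (_ : Gm D P u b)
    (Q : ClassGroup (D.base Ω).A), (∀ σ : Ω ≃ₐ[F] Ω, D.mC (rs K σ) Q = Q) →
    (D.base Ω).phi ((D.base Ω).phi Q) = 1 → (D.base Ω).phi Q = 1

/-- NZT-TAU: a relation up to a point of order `(1 - s) ^ 3` is a relation -/
def S_TAU : Prop :=
  ∀ (ℓ n : ℕ) (k k' K F Ω : Type) [Field k] [CharZero k] [Field k'] [Algebra k k']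
    [IsSepClosure k k'] [Field K] [Algebra k[X] K] [IsFractionRing k[X] K] [Field F]
    [Algebra k'[X] F] [IsFractionRing k'[X] F] [Algebra K F] [Field Ω] [Algebra F Ω] [Algebra K Ω]
    [IsScalarTower K F Ω] [IsSepClosure F Ω] [IsGalois F Ω] [IsGalois K Ω] [IsSepClosed Ω]
    (_ : HKF k k' K F) (D : Dat ℓ n K) (P : k[X]) (u : ℕ) (b : Fin n → k[X])
    (_ : Gm D P u b)
    (z : (Ω ≃ₐ[F] Ω) → ClassGroup (D.base Ω).A), D.CocF z →
    (∀ σ, (D.base Ω).phi ((D.base Ω).phi (z σ)) = 1) →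
    ∀ (τ : Ω ≃ₐ[K] Ω) (A : ClassGroup (D.base Ω).A) (m : Fin n → ℕ), Rel D z τ A →
    (D.base Ω).phi ((D.base Ω).phi A) = cl ((D.base Ω).PT m) →
    (D.base Ω).phi ((D.base Ω).phi A) = 1

/-- NZT-EXT: the first layer extends to the Galois group of `K` -/
def S_EXT : Prop :=
  ∀ (ℓ n : ℕ) (k k' K F Ω : Type) [Field k] [CharZero k] [Field k'] [Algebra k k']
    [IsSepClosure k k'] [Field K] [Algebra k[X] K] [IsFractionRing k[X] K] [Field F]
    [Algebra k'[X] F] [IsFractionRing k'[X] F] [Algebra K F] [Field Ω] [Algebra F Ω] [Algebra K Ω]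
    [IsScalarTower K F Ω] [IsSepClosure F Ω] [IsGalois F Ω] [IsGalois K Ω] [IsSepClosed Ω]
    (_ : HKF k k' K F) (D : Dat ℓ n K) (P : k[X]) (u : ℕ) (b : Fin n → k[X])
    (_ : Gm D P u b)
    (z : (Ω ≃ₐ[F] Ω) → ClassGroup (D.base Ω).A), Sec D k' z →
    ∃ χ : (Ω ≃ₐ[K] Ω) → Fin n → ℕ, Ex D z χ

/-- NZT-TATE: the Tate conjecture at `ℓ` if all first layers of second layers come from points of
order `1 - s` -/
def S_TATE : Prop :=
  ∀ (ℓ n : ℕ) (k k' K F : Type) [Field k] [CharZero k] [Field k'] [Algebra k k']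
    [IsSepClosure k k'] [Field K] [Algebra k[X] K] [IsFractionRing k[X] K] [Field F]
    [Algebra k'[X] F] [IsFractionRing k'[X] F] [Algebra K F] [IsGalois K (Sep F)]
    (_ : HKF k k' K F) (D : Dat ℓ n K) (P : k[X]) (u : ℕ) (b : Fin n → k[X])
    (_ : Gm D P u b)
    (_ : ∀ z : (Sep F ≃ₐ[F] Sep F) → ClassGroup (D.base (Sep F)).A, Sec D k' z →
      ∃ (m : Fin n → ℕ) (Q : ClassGroup (D.base (Sep F)).A),
        cl ((D.base (Sep F)).PT m) * (D.base (Sep F)).sC Q = Q ∧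
        ∀ σ : Sep F ≃ₐ[F] Sep F, (D.base (Sep F)).phi (z σ) = D.mC (rs K σ) Q / Q),
    Pool.Agent.Y713.Tate.TateAt (F := F) ℓ k' D.f

/-! The local argument. -/

/-- the expansion at `θ` -/
noncomputable def ex {k' : Type} [Field k'] (θ : k') : k'[X] →+* LaurentSeries k' :=
  eval₂RingHom (HahnSeries.C) (HahnSeries.C θ + HahnSeries.single 1 1)

/-- an embedding of `Ω` in an algebraic closure of the field of Laurent series which extends the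
expansion at `θ` -/
structure LD {k' : Type} [Field k'] (F Ω : Type) [Field F] [Algebra k'[X] F] [Field Ω] [Algebra F Ω]
    (θ : k') where
  ι : Ω →+* AlgebraicClosure (LaurentSeries k')
  hι : ∀ p : k'[X], ι (algebraMap F Ω (algebraMap k'[X] F p)) =
    algebraMap (LaurentSeries k') (AlgebraicClosure (LaurentSeries k')) (ex θ p)

/-- `τ` is the restriction of an automorphism which acts by `s` on the coefficients of the Laurent
series -/
def LD.Loc {k k' : Type} [Field k] [Field k'] [Algebra k k'] {K F Ω : Type} [Field K] [Field F]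
    [Algebra k'[X] F] [Field Ω] [Algebra F Ω] [Algebra K Ω] {θ : k'} (ld : LD F Ω θ)
    (s : k' ≃ₐ[k] k') (τ : Ω ≃ₐ[K] Ω) : Prop :=
  ∃ S : AlgebraicClosure (LaurentSeries k') ≃+* AlgebraicClosure (LaurentSeries k'),
    (∀ x y : LaurentSeries k', (∀ i, y.coeff i = s (x.coeff i)) →
      S (algebraMap (LaurentSeries k') (AlgebraicClosure (LaurentSeries k')) x) =
        algebraMap (LaurentSeries k') (AlgebraicClosure (LaurentSeries k')) y) ∧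
    ∀ w : Ω, S (ld.ι w) = ld.ι (τ w)

/-- NZT-LDE: existence -/
def S_LDE : Prop :=
  ∀ (k k' K F Ω : Type) [Field k] [CharZero k] [Field k'] [Algebra k k']
    [IsSepClosure k k'] [Field K] [Algebra k[X] K] [IsFractionRing k[X] K] [Field F]
    [Algebra k'[X] F] [IsFractionRing k'[X] F] [Algebra K F] [Field Ω] [Algebra F Ω] [Algebra K Ω]
    [IsScalarTower K F Ω] [IsSepClosure F Ω] [IsGalois F Ω] [IsGalois K Ω] [IsSepClosed Ω]
    (_ : HKF k k' K F) (θ : k'),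
    ∃ ld : LD F Ω θ, ∀ s : k' ≃ₐ[k] k', s θ = θ → ∃ τ : Ω ≃ₐ[K] Ω, ld.Loc s τ

/-- NZT-LOCA: a local automorphism acts on the first layer by classes which are unramified at `θ` -/
def S_LOCA : Prop :=
  ∀ (ℓ n : ℕ) (k k' K F Ω : Type) [Field k] [CharZero k] [Field k'] [Algebra k k']
    [IsSepClosure k k'] [Field K] [Algebra k[X] K] [IsFractionRing k[X] K] [Field F]
    [Algebra k'[X] F] [IsFractionRing k'[X] F] [Algebra K F] [Field Ω] [Algebra F Ω] [Algebra K Ω]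
    [IsScalarTower K F Ω] [IsSepClosure F Ω] [IsGalois F Ω] [IsGalois K Ω] [IsSepClosed Ω]
    (_ : HKF k k' K F) (D : Dat ℓ n K) (_ : ℓ ≠ 2) (θ : k') (ld : LD F Ω θ) (s : k' ≃ₐ[k] k')
    (τ : Ω ≃ₐ[K] Ω) (_ : ld.Loc s τ) (_ : s θ = θ)
    (z : (Ω ≃ₐ[F] Ω) → ClassGroup (D.base Ω).A) (_ : D.CocF z)
    (_ : ∀ σ, (D.base Ω).phi ((D.base Ω).phi (z σ)) = 1)
    (χ : (Ω ≃ₐ[F] Ω) → Fin n → ℕ) (kd : D.KF χ)
    (_ : ∀ σ, (D.base Ω).phi (z σ) = cl ((D.base Ω).PT (χ σ)))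
    (_ : ∀ i j, ov ℓ (pl θ) (kd.d i j) = 0)
    (A : ClassGroup (D.base Ω).A) (m : Fin n → ℕ) (_ : Rel D z τ A)
    (_ : (D.base Ω).phi A = cl ((D.base Ω).PT m)),
    ∀ i j, ov ℓ (pl θ) (algebraMap K F (Tm D m i)) = ov ℓ (pl θ) (algebraMap K F (Tm D m j))

/-- NZT-LOCB: an element whose roots are fixed by the local automorphisms is a local `ℓ`-th power -/
def S_LOCB : Prop :=
  ∀ (ℓ : ℕ) (k k' K F Ω : Type) [Field k] [CharZero k] [Field k'] [Algebra k k']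
    [IsSepClosure k k'] [Field K] [Algebra k[X] K] [IsFractionRing k[X] K] [Field F]
    [Algebra k'[X] F] [IsFractionRing k'[X] F] [Algebra K F] [Field Ω] [Algebra F Ω] [Algebra K Ω]
    [IsScalarTower K F Ω] [IsSepClosure F Ω] [IsGalois F Ω] [IsGalois K Ω] [IsSepClosed Ω]
    (_ : HKF k k' K F) (_ : ℓ.Prime) (ζ : k) (_ : IsPrimitiveRoot ζ ℓ) (θ : k') (ld : LD F Ω θ)
    (v : HeightOneSpectrum k[X]) (_ : ∀ p : k[X], p ∈ v.asIdeal ↔ aeval θ p = 0)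
    (x : K) (y : Ω) (_ : x ≠ 0) (_ : y ^ ℓ = algebraMap K Ω x)
    (_ : ov ℓ v x = 0)
    (_ : ∀ (s : k' ≃ₐ[k] k'), s θ = θ → ∃ τ : Ω ≃ₐ[K] Ω, ld.Loc s τ ∧ τ y = y),
    ∃ w : v.adicCompletion K, algebraMap K (v.adicCompletion K) x = w ^ ℓ

/-- NZT-PL: places of `K` and of `F` -/
def S_PL : Prop :=
  ∀ (k k' K F : Type) [Field k] [CharZero k] [Field k'] [Algebra k k']
    [IsSepClosure k k'] [Field K] [Algebra k[X] K] [IsFractionRing k[X] K] [Field F]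
    [Algebra k'[X] F] [IsFractionRing k'[X] F] [Algebra K F]
    (_ : HKF k k' K F) (v : HeightOneSpectrum k[X]),
    ∃ θ : k', (∀ p : k[X], p ∈ v.asIdeal ↔ aeval θ p = 0) ∧
      ∀ x : K, (pl θ).valuation F (algebraMap K F x) = v.valuation K x

/-! The conditions at the places. -/

/-- NZT-GOOD -/
def S_GOOD : Prop :=
  ∀ (ℓ n : ℕ) (k k' K F Ω : Type) [Field k] [CharZero k] [Field k'] [Algebra k k']
    [IsSepClosure k k'] [Field K] [Algebra k[X] K] [IsFractionRing k[X] K] [Field F]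
    [Algebra k'[X] F] [IsFractionRing k'[X] F] [Algebra K F] [Field Ω] [Algebra F Ω] [Algebra K Ω]
    [IsScalarTower K F Ω] [IsSepClosure F Ω] [IsGalois F Ω] [IsGalois K Ω] [IsSepClosed Ω]
    (_ : HKF k k' K F) (D : Dat ℓ n K)
    (z : (Ω ≃ₐ[F] Ω) → ClassGroup (D.base Ω).A) (_ : Sec D k' z) (χ : (Ω ≃ₐ[K] Ω) → Fin n → ℕ)
    (_ : Ex D z χ) (kd : D.KD χ) (_ : D.δ = 1) (v : HeightOneSpectrum k[X])
    (_ : ∀ i j, i ≠ j → v.valuation K (D.e i - D.e j) = 1),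
    ∀ i j, Pw ℓ (v.valuation K (kd.d i j))

/-- the relation of an adjusted cocycle with the cocycle -/
def Adj {ℓ n : ℕ} {K L : Type} [Field K] [Field L] [Algebra K L] (D : Dat ℓ n K) (m : Fin n → ℕ)
    (χ : (L ≃ₐ[K] L) → Fin n → ℕ) (Q : ClassGroup (D.base L).A) (χ' : (L ≃ₐ[K] L) → Fin n → ℕ) :
    Prop :=
  cl ((D.base L).PT m) * (D.base L).sC Q = Q ∧
    ∀ σ, cl ((D.base L).PT (χ' σ)) = cl ((D.base L).PT (χ σ)) / (D.mC (au σ) Q / Q)

/-- NZT-TWIST -/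
def S_TWIST : Prop :=
  ∀ (ℓ n : ℕ) (k k' K F Ω : Type) [Field k] [CharZero k] [Field k'] [Algebra k k']
    [IsSepClosure k k'] [Field K] [Algebra k[X] K] [IsFractionRing k[X] K] [Field F]
    [Algebra k'[X] F] [IsFractionRing k'[X] F] [Algebra K F] [Field Ω] [Algebra F Ω] [Algebra K Ω]
    [IsScalarTower K F Ω] [IsSepClosure F Ω] [IsGalois F Ω] [IsGalois K Ω] [IsSepClosed Ω]
    (_ : HKF k k' K F) (D : Dat ℓ n K) (_ : ℓ ≠ 2) (ζ : k) (_ : IsPrimitiveRoot ζ ℓ)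
    (z : (Ω ≃ₐ[F] Ω) → ClassGroup (D.base Ω).A) (_ : Sec D k' z) (χ : (Ω ≃ₐ[K] Ω) → Fin n → ℕ)
    (_ : Ex D z χ) (_ : D.δ = 1) (u : ℕ) (_ : ¬ ℓ ∣ u) (v : HeightOneSpectrum k[X])
    (_ : ∀ i j, i ≠ j → v.valuation K (D.e i - D.e j) = WithZero.exp (-(u : ℤ))),
    ∃ m : Fin n → ℕ, ∀ (Q : ClassGroup (D.base Ω).A) (χ' : (Ω ≃ₐ[K] Ω) → Fin n → ℕ) (kd : D.KD χ'),
      Adj D m χ Q χ' →
      ∀ i j, ∃ x : v.adicCompletion K, algebraMap K (v.adicCompletion K) (kd.d i j) = x ^ ℓ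

/-- NZT-COLL -/
def S_COLL : Prop :=
  ∀ (ℓ n : ℕ) (k k' K F Ω : Type) [Field k] [CharZero k] [Field k'] [Algebra k k']
    [IsSepClosure k k'] [Field K] [Algebra k[X] K] [IsFractionRing k[X] K] [Field F]
    [Algebra k'[X] F] [IsFractionRing k'[X] F] [Algebra K F] [Field Ω] [Algebra F Ω] [Algebra K Ω]
    [IsScalarTower K F Ω] [IsSepClosure F Ω] [IsGalois F Ω] [IsGalois K Ω] [IsSepClosed Ω]
    (_ : HKF k k' K F) (D : Dat ℓ n K) (_ : ℓ ≠ 2) (ζ : k) (_ : IsPrimitiveRoot ζ ℓ)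
    (z : (Ω ≃ₐ[F] Ω) → ClassGroup (D.base Ω).A) (_ : Sec D k' z) (χ : (Ω ≃ₐ[K] Ω) → Fin n → ℕ)
    (_ : Ex D z χ) (_ : D.δ = 1) (v : HeightOneSpectrum k[X]) (p q c : Fin n) (_ : p ≠ q) (_ : c ≠ p)
    (_ : c ≠ q)
    (_ : ∀ i j, i ≠ j → ¬ (i = p ∧ j = q) → ¬ (i = q ∧ j = p) → v.valuation K (D.e i - D.e j) = 1)
    (_ : v.valuation K (D.e p - D.e q) = WithZero.exp (-1 : ℤ)),
    ∃ r : ℕ, ∀ (m : Fin n → ℕ) (Q : ClassGroup (D.base Ω).A) (χ' : (Ω ≃ₐ[K] Ω) → Fin n → ℕ)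
      (kd : D.KD χ'), m q = r → m p = 0 → Adj D m χ Q χ' →
      (∀ i j, Pw ℓ (v.valuation K (kd.d i j))) ∧
      ∃ x : v.adicCompletion K, algebraMap K (v.adicCompletion K) (kd.d p q) = x ^ ℓ

/-- NZT-ABS2: the criterion for a curve isomorphic to the linked curve, in terms of the conditions at
the places -/
def S_ABS2 : Prop :=
  ∀ (ℓ : ℕ) [Fact ℓ.Prime] (k K : Type) [Field k] [Field K] [Algebra k[X] K]
    [IsFractionRing k[X] K] (F : Type) [Field F] [Fintype F] [DecidableEq F] (n : ℕ)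
    (a : Fin n → F[X]) (N : ℕ) (H : Pool.Agent.Y164.SZ.Geo ℓ a N) (ι : Type) [Fintype ι]
    (T : ι → F[X]) (_ : Pool.Agent.Y164.PS.Fam (Pool.Agent.Y164.SZ.RR a T))
    (S : Sys ℓ k K (Pool.Agent.Y164.SZ.RR a T)) (D0 D : Dat ℓ n K) (_ : Link H T S D0)
    (_ : ∀ m : Fin n → ℕ, ∃ c : K, c ≠ 0 ∧ ∀ i, ∃ z : K, z ≠ 0 ∧ Tm D m i = c * z ^ ℓ * Tm D0 m i)
    (σ : Pool.Agent.Y164.SZ.Tau a → ZMod ℓ)
    (_ : Pool.Agent.Y164.SZ.cl (H.dat σ) (Pool.Agent.Y164.SZ.QQ a) T)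
    (_ : IsUnit (∑ i, ((T i).natDegree : ZMod ℓ) + (n : ZMod ℓ) * (N : ZMod ℓ)))
    (_ : IsUnit (∑ i, ((T i).natDegree : ZMod ℓ)))
    (_ : Pool.Agent.Y164.SZ.Triv (H.dat σ) (Pool.Agent.Y164.SZ.AT ℓ T)
      (Pool.Agent.Y164.SZ.BT ℓ (Pool.Agent.Y164.SZ.QQ a) T) (fun i => ((T i).natDegree : ZMod ℓ)))
    (E : Type) [Field E] [Algebra K E] [IsGalois K E] [IsSepClosed E] (p : ℕ) [ExpChar E p]
    (χ : (E ≃ₐ[K] E) → Fin n → ℕ) (_ : D.Coc (fun τ => cl ((D.base E).PT (χ τ))))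
    (_ : ∀ v : HeightOneSpectrum k[X], (∀ y, v ≠ S.pl y) → ∀ (kd : D.KD χ) (i j : Fin n),
      Pw ℓ (v.valuation K (kd.d i j)))
    (_ : ∀ x : ι, ∃ m : Fin n → ℕ, ∀ (Q : ClassGroup (D.base E).A) (χ' : (E ≃ₐ[K] E) → Fin n → ℕ)
      (kd : D.KD χ'), Adj D m χ Q χ' → ∀ i j, ∃ w : (S.pl (Sum.inl x)).adicCompletion K,
        algebraMap K ((S.pl (Sum.inl x)).adicCompletion K) (kd.d i j) = w ^ ℓ)
    (_ : ∀ s : Pool.Agent.Y164.SZ.Tau a, ∃ r : ℕ, ∀ (m : Fin n → ℕ) (Q : ClassGroup (D.base E).A)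
      (χ' : (E ≃ₐ[K] E) → Fin n → ℕ) (kd : D.KD χ'), m (H.q s) = r → m (H.p s) = 0 →
      Adj D m χ Q χ' → (∀ i j, Pw ℓ ((S.pl (Sum.inr s)).valuation K (kd.d i j))) ∧
        ∃ w : (S.pl (Sum.inr s)).adicCompletion K,
          algebraMap K ((S.pl (Sum.inr s)).adicCompletion K) (kd.d (H.p s) (H.q s)) = w ^ ℓ),
    ∃ (m : Fin n → ℕ) (Q : ClassGroup (D.base E).A),
      cl ((D.base E).PT m) * (D.base E).sC Q = Q ∧
      ∀ τ, cl ((D.base E).PT (χ τ)) = D.mC (au τ) Q / Q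

end Pool.Agent.Y164.NZ
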