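import Pool.Agent.Y164.NZ.Clo
import Pool.Agent.Y141.NZ.Fix
import Pool.Agent.Y914.NZ.TAU
import Pool.Agent.Y839.NZ.Ext
import Pool.Agent.Y849.NZ.Tate
import Pool.Agent.Y528.NZ.RRT
import Pool.Agent.Y447.NZ.LDE
import Pool.Agent.Y237.NZ.Loca
import Pool.Agent.Y508.NZ.Locb
import Pool.Agent.Y569.NZ.PL
import Pool.Agent.Y309.NZ.Good
import Pool.Agent.Y955.NZ.Twist
import Pool.Agent.Y587.NZ.Coll
import Pool.Agent.Y689.NZ.Abs2

/-!
The theorem for number fields: the lemmas of the second part.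
-/

set_option autoImplicit false
set_option linter.all false

namespace Pool.Agent.Y164.NZ

theorem c_lems : Lems where
  fix := Pool.Agent.Y141.NZ.Fix.t
  tau := Pool.Agent.Y914.NZ.TAU.t
  ext := Pool.Agent.Y839.NZ.t Pool.Agent.Y141.NZ.Fix.t
  tate := Pool.Agent.Y849.NZ.t Pool.Agent.Y141.NZ.Fix.t Pool.Agent.Y914.NZ.TAU.t
  good := Pool.Agent.Y309.NZ.t Pool.Agent.Y569.NZ.t
  twist := Pool.Agent.Y955.NZ.Twist.t Pool.Agent.Y528.NZ.RRT.t Pool.Agent.Y569.NZ.t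
    Pool.Agent.Y447.NZ.t (Pool.Agent.Y237.NZ.t Pool.Agent.Y528.NZ.RRT.t) Pool.Agent.Y508.NZ.t
  coll := Pool.Agent.Y587.NZ.t Pool.Agent.Y528.NZ.RRT.t Pool.Agent.Y569.NZ.t
    Pool.Agent.Y447.NZ.t (Pool.Agent.Y237.NZ.t Pool.Agent.Y528.NZ.RRT.t) Pool.Agent.Y508.NZ.t
  abs2 := Pool.Agent.Y689.NZ.t

end Pool.Agent.Y164.NZ
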