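import Pool.Agent.Y164.NZ.Prm
import Pool.Agent.Y37.SZ.Sym
import Pool.Agent.Y547.SZ.Comb
import Pool.Agent.Y515.SZ.Eul
import Pool.Agent.Y188.NZ.Cnt

/-!
The theorem for number fields.
-/

set_option autoImplicit false
set_option linter.all false

open Polynomial IsDedekindDomain NumberField
open scoped Classical

namespace Pool.Agent.Y164.NZ

open Finset Filter
open Pool.Agent.Y164.SZ
open Pool.Agent.Y164.HG (tw)

/-- the data of a reduction modulo a prime -/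
structure RedOK {A : Type} [CommRing A] (ℓ : ℕ) {n : ℕ} (N : ℕ) (b : Fin n → A[X]) {F : Type}
    [Field F] (r : A →+* F) : Prop where
  surj : Function.Surjective r
  two : (2 : F) ≠ 0
  deg : ∀ i j, i ≠ j → ((b i).map r - (b j).map r).natDegree = N
  sq : Squarefree (Dif (fun i => (b i).map r))
  div : ℓ ∣ Nat.card F - 1

/-- for some reduction the twist is good -/
def GoodRed {A : Type} [CommRing A] (ℓ : ℕ) {n : ℕ} (N : ℕ) (b : Fin n → A[X]) (D : A[X]) : Prop :=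
  ∃ (F : Type) (_ : Field F) (_ : Finite F) (r : A →+* F), RedOK ℓ N b r ∧
    D.map r ∈ tw (fun i => (b i).map r) D.natDegree ∧
    Good ℓ (RatFunc F) (fun i => (b i).map r) (D.map r)

section prime
variable {A : Type} [CommRing A] [IsDomain A] [IsDedekindDomain A]
  {ℓ : ℕ} [hℓ : Fact ℓ.Prime] {F : Type} [Field F] [Fintype F] [DecidableEq F]
  {n : ℕ} {b : Fin n → A[X]} {N : ℕ}

theorem dif_map {A B : Type} [CommRing A] [CommRing B] (r : A →+* B) {n : ℕ} (b : Fin n → A[X]) :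
    (Dif b).map r = Dif (fun i => (b i).map r) := by
  unfold Dif
  rw [Polynomial.map_prod]
  exact prod_congr rfl fun x _ => Polynomial.map_sub _

theorem natCast_ne (hlk : ℓ ∣ Fintype.card F - 1) : ((ℓ : ℕ) : F) ≠ 0 := by
  have hq1 : 1 < Fintype.card F := Fintype.one_lt_card
  intro h
  obtain ⟨r, hr⟩ := hlk
  have h1 : ((Fintype.card F - 1 : ℕ) : F) = 0 := by rw [hr, Nat.cast_mul, h, zero_mul]
  rw [Nat.cast_sub hq1.le, FiniteField.cast_card_eq_zero, Nat.cast_one, zero_sub] at h1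
  exact one_ne_zero (neg_eq_zero.1 h1)

theorem root_of_dvd (hlk : ℓ ∣ Fintype.card F - 1) : ∃ ζ : F, IsPrimitiveRoot ζ ℓ := by
  have hq1 : 1 < Fintype.card F := Fintype.one_lt_card
  obtain ⟨g, hg⟩ := IsCyclic.exists_generator (α := Fˣ)
  have ho : orderOf g = Fintype.card F - 1 := by
    rw [orderOf_eq_card_of_forall_mem_zpowers hg, Nat.card_eq_fintype_card, Fintype.card_units]
  obtain ⟨r, hr⟩ := hlk
  have hr0 : 0 < Fintype.card F - 1 := by omega
  have h1 : IsPrimitiveRoot g (Fintype.card F - 1) := ho ▸ IsPrimitiveRoot.orderOf g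
  have h3 : IsPrimitiveRoot (g ^ r) ℓ := h1.pow hr0 (by rw [hr, mul_comm])
  exact ⟨((g ^ r : Fˣ) : F), IsPrimitiveRoot.coe_units_iff.2 h3⟩

/-- the count at one prime -/
theorem prime_count (hFGEN : S_FGEN) (hUNI : S_UNI) (hCRIT : S_CRIT) (hl2 : ℓ ≠ 2)
    (hn : ¬ ℓ ∣ n) (hn3 : 3 ≤ n) (hN : 1 ≤ N) (r : A →+* F) (hr : RedOK ℓ N b r)
    (hq : 8 * ((Dif b).natDegree + 1) ≤ Fintype.card F)
    (G : A[X] → Prop)
    (hG : ∀ (H : Geo ℓ (fun i => (b i).map r) N) (σ : Tau (fun i => (b i).map r) → ZMod ℓ),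
      Imp (H.dat σ) (QQ (fun i => (b i).map r))
        (fun E => ¬ ℓ ∣ E.natDegree → ∀ D : A[X], D.Monic → D.map r = E → G D)) :
    ∀ᶠ m : ℕ in atTop, ¬ ℓ ∣ m → ¬ ℓ ∣ m + n * N →
      (∏' i : ℕ, (1 + ((ℓ : ℝ)⁻¹) ^ (i + 1))⁻¹) / 4 * (Fintype.card F : ℝ) ^ m ≤
        (({E : F[X] | E.Monic ∧ E.natDegree = m ∧ E ∈ tw (fun i => (b i).map r) m ∧
          ∀ D : A[X], D.Monic → D.map r = E → G D ∧ GoodRed ℓ N b D}).ncard : ℝ) := by
  have hlk : ℓ ∣ Fintype.card F - 1 := by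
    have := hr.div
    rwa [Nat.card_eq_fintype_card] at this
  have hl3 : 3 ≤ ℓ := by
    have := hℓ.out.two_le
    omega
  obtain ⟨-, hκ⟩ := Pool.Agent.Y515.SZ.t ℓ (by omega)
  obtain ⟨κ, hκd⟩ : ∃ κ : ℝ, κ = ∏' i : ℕ, (1 + ((ℓ : ℝ)⁻¹) ^ (i + 1))⁻¹ := ⟨_, rfl⟩
  rw [← hκd] at hκ ⊢
  have hG' : ∀ (H : Geo ℓ (fun i => (b i).map r) N) (σ : Tau (fun i => (b i).map r) → ZMod ℓ),
      Imp (H.dat σ) (QQ (fun i => (b i).map r))
        (fun E => (¬ ℓ ∣ E.natDegree → ∀ D : A[X], D.Monic → D.map r = E → G D) ∧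
          Good ℓ (RatFunc F) (fun i => (b i).map r) E) := by
    intro H σ ι _ T hR hcl hpar htr
    obtain ⟨ζ, hζ⟩ := root_of_dvd hlk
    exact ⟨hG H σ ι T hR hcl hpar htr,
      Pool.Agent.Y164.SZ.imp_good (K := RatFunc F) H hCRIT hζ σ ι T hR hcl hpar htr⟩
  have h1 := hFGEN ℓ hl2 F hr.two hlk n hn hn3 N hN (fun i => (b i).map r) hr.deg hr.sq _ hG'
    (κ / 2) (by linarith)
  have hne : ∀ i j, i ≠ j → (b i).map r ≠ (b j).map r := by
    intro i j hij h
    have := hr.deg i j hij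
    rw [h, sub_self, natDegree_zero] at this
    omega
  filter_upwards [h1] with m hm hm1 hm2
  have h2 := hm hm2
  rw [← hκd] at h2
  have hq2 : 8 * ((Dif (fun i => (b i).map r)).natDegree + 1) ≤ Fintype.card F := by
    refine le_trans ?_ hq
    have : (Dif (fun i => (b i).map r)).natDegree ≤ (Dif b).natDegree := by
      rw [← dif_map]
      exact natDegree_map_le
    omega
  have h3 := hUNI F n _ hne hq2 m
  have h4 : (Fintype.card F : ℝ) ^ m ≤ 2 * ((tw (fun i => (b i).map r) m).ncard : ℝ) := by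
    exact_mod_cast h3
  have h5 : κ / 4 * (Fintype.card F : ℝ) ^ m ≤
      (κ - κ / 2) * ((tw (fun i => (b i).map r) m).ncard : ℝ) := by
    nlinarith
  refine h5.trans (h2.trans ?_)
  norm_cast
  apply Set.ncard_le_ncard
  · rintro E ⟨hE, hE2, hE3⟩
    refine ⟨hE.1, hE.2.1, hE, fun D hD hDE => ?_⟩
    have hdeg : E.natDegree = D.natDegree := by
      rw [← hDE, hD.natDegree_map]
    refine ⟨hE2 (by rw [hE.2.1]; exact hm1) D hD hDE, F, inferInstance, inferInstance, r, hr, ?_, ?_⟩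
    · rw [hDE, ← hdeg, hE.2.1]
      exact hE
    · rw [hDE]
      exact hE3
  · obtain ⟨-, hfin⟩ := Pool.Agent.Y188.NZ.card_monic F m
    have h6 : ({p : F[X] | p.Monic ∧ p.natDegree = m}).Finite := hfin
    exact h6.subset fun E hE => ⟨hE.1, hE.2.1⟩

end prime

end Pool.Agent.Y164.NZ
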