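import Pool.Agent.Y164.NZ.Fin

/-!
The theorem for number fields: combination of the primes.
-/

set_option autoImplicit false
set_option linter.all false

open Polynomial IsDedekindDomain NumberField
open scoped Classical

namespace Pool.Agent.Y164.NZ

open Finset Filter
open Pool.Agent.Y164.SZ
open Pool.Agent.Y164.HG (tw)

theorem kappa_pos {ℓ : ℕ} (h : 2 ≤ ℓ) : 0 < ∏' i : ℕ, (1 + ((ℓ : ℝ)⁻¹) ^ (i + 1))⁻¹ :=
  (Pool.Agent.Y515.SZ.t ℓ h).2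

/-- combination of the primes, for a general property of the lifts -/
theorem combine (hFGEN : S_FGEN) (hUNI : S_UNI) (hCRIT : S_CRIT) (hCNT : S_CNT) (hNF : S_NF)
    {ℓ : ℕ} (hℓ : ℓ.Prime) (hl2 : ℓ ≠ 2) {k : Type} [Field k] [NumberField k] {ζ : k}
    (hζ : IsPrimitiveRoot ζ ℓ) {n : ℕ} (hn : ¬ ℓ ∣ n) (hn3 : 3 ≤ n) {N : ℕ} (hN : 1 ≤ N)
    (b : Fin n → (𝓞 k)[X]) (hb : ∀ i j, i ≠ j → (b i - b j).natDegree = N)
    (hs : Squarefree ((Dif b).map (algebraMap (𝓞 k) k))) (G : (𝓞 k)[X] → Prop)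
    (hG : ∀ (_ : Fact ℓ.Prime) (P : HeightOneSpectrum (𝓞 k)) (F : Type) [Field F] [Fintype F]
      [DecidableEq F] (e : 𝓞 k ⧸ P.asIdeal →+* F) (_ : Function.Surjective e)
      (H : Geo ℓ (fun i => (b i).map (e.comp (Ideal.Quotient.mk P.asIdeal))) N)
      (_ : ∀ i j, i ≠ j → (b i - b j).leadingCoeff ∉ P.asIdeal)
      (σ : Tau (fun i => (b i).map (e.comp (Ideal.Quotient.mk P.asIdeal))) → ZMod ℓ),
      Imp (H.dat σ) (QQ (fun i => (b i).map (e.comp (Ideal.Quotient.mk P.asIdeal))))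
        (fun E => ¬ ℓ ∣ E.natDegree → ∀ D : (𝓞 k)[X], D.Monic →
          D.map (e.comp (Ideal.Quotient.mk P.asIdeal)) = E → G D))
    (η : ℝ) (hη : 0 < η) : ∃ M : Ideal (𝓞 k), M ≠ ⊥ ∧ ∀ᶠ m : ℕ in atTop, ¬ ℓ ∣ m →
      ¬ ℓ ∣ m + n * N → (1 - η) * (Nat.card (𝓞 k ⧸ M) : ℝ) ^ m ≤
        (({E : (𝓞 k ⧸ M)[X] | E.Monic ∧ E.natDegree = m ∧ ∀ D : (𝓞 k)[X], D.Monic →
          D.map (Ideal.Quotient.mk M) = E → G D ∧ GoodRed ℓ N b D}).ncard : ℝ) := by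
  haveI : Fact ℓ.Prime := ⟨hℓ⟩
  obtain ⟨κ, hκd⟩ : ∃ κ : ℝ, κ = ∏' i : ℕ, (1 + ((ℓ : ℝ)⁻¹) ^ (i + 1))⁻¹ := ⟨_, rfl⟩
  have hκ : 0 < κ := hκd ▸ kappa_pos hℓ.two_le
  obtain ⟨c, hc⟩ : ∃ c : ℝ, c = min (κ / 4) 1 := ⟨_, rfl⟩
  have hc0 : 0 < c := hc ▸ lt_min (by linarith) one_pos
  have hc1 : c ≤ 1 := hc ▸ min_le_right _ _
  have hcκ : c ≤ κ / 4 := hc ▸ min_le_left _ _
  obtain ⟨r, hr⟩ := exists_pow_lt_of_lt_one hη (show 1 - c < 1 by linarith)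
  obtain ⟨r, hr1, hr⟩ : ∃ r : ℕ, 1 ≤ r ∧ (1 - c) ^ r < η :=
    ⟨r + 1, by omega, lt_of_le_of_lt (pow_le_pow_of_le_one (by linarith) (by linarith)
      (Nat.le_succ r)) hr⟩
  have hinf := hNF ℓ hℓ k ζ hζ n N hN b hb hs (8 * ((Dif b).natDegree + 1))
  obtain ⟨P, hPinj, hP⟩ : ∃ P : Fin r → HeightOneSpectrum (𝓞 k), Function.Injective P ∧
      ∀ i, P i ∈ {P : HeightOneSpectrum (𝓞 k) | Finite (𝓞 k ⧸ P.asIdeal) ∧
        8 * ((Dif b).natDegree + 1) ≤ Nat.card (𝓞 k ⧸ P.asIdeal) ∧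
        (2 : 𝓞 k) ∉ P.asIdeal ∧ ℓ ∣ Nat.card (𝓞 k ⧸ P.asIdeal) - 1 ∧
        (∀ i j, i ≠ j → (b i - b j).leadingCoeff ∉ P.asIdeal) ∧
        Squarefree ((Dif b).map (Ideal.Quotient.mk P.asIdeal))} := by
    refine ⟨fun i => (hinf.natEmbedding _ i.1).1, ?_, fun i => (hinf.natEmbedding _ i.1).2⟩
    intro i j hij
    exact Fin.ext ((hinf.natEmbedding _).injective (Subtype.ext hij))
  obtain ⟨I, hI⟩ : ∃ I : Fin r → Ideal (𝓞 k), I = fun i => (P i).asIdeal := ⟨_, rfl⟩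
  have hImax : ∀ i, (I i).IsMaximal := fun i => by rw [hI]; exact (P i).isMaximal
  have hIne : ∀ i j, i ≠ j → I i ≠ I j := by
    intro i j hij h
    apply hij
    apply hPinj
    apply HeightOneSpectrum.ext
    rw [hI] at h
    exact h
  have hIfin : ∀ i, Finite (𝓞 k ⧸ I i) := fun i => by rw [hI]; exact (hP i).1
  have hM0 : (⨅ i, I i) ≠ ⊥ := by
    have h1 : ∏ i, I i ≤ ⨅ i, I i := by
      rw [← Finset.inf_univ_eq_iInf]
      exact Ideal.prod_le_inf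
    have h2 : ∏ i, I i ≠ ⊥ := by
      rw [← Ideal.zero_eq_bot]
      refine prod_ne_zero_iff.2 fun i _ => ?_
      rw [hI]
      exact (P i).ne_bot
    intro h
    rw [h] at h1
    exact h2 (le_bot_iff.1 h1)
  refine ⟨⨅ i, I i, hM0, ?_⟩
  -- the counts
  have hcount : ∀ i, ∀ᶠ m : ℕ in atTop, ¬ ℓ ∣ m → ¬ ℓ ∣ m + n * N →
      c * (Nat.card (𝓞 k ⧸ I i) : ℝ) ^ m ≤
      (({E : (𝓞 k ⧸ I i)[X] | E.Monic ∧ E.natDegree = m ∧ E ∈ {E : (𝓞 k ⧸ I i)[X] |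
        ∀ D : (𝓞 k)[X], D.Monic → D.map (Ideal.Quotient.mk (I i)) = E →
          G D ∧ GoodRed ℓ N b D}}).ncard : ℝ) := by
    intro i
    subst hI
    obtain ⟨h1, h2, h3, h4, h5, h6⟩ := hP i
    haveI := hImax i
    letI : Field (𝓞 k ⧸ (P i).asIdeal) := Ideal.Quotient.field _
    haveI := h1
    letI : Fintype (𝓞 k ⧸ (P i).asIdeal) := Fintype.ofFinite _
    have hlead : ∀ i' j, i' ≠ j → Ideal.Quotient.mk (P i).asIdeal (b i' - b j).leadingCoeff ≠ 0 := by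
      intro i' j hij
      rw [Ne, Ideal.Quotient.eq_zero_iff_mem]
      exact h5 i' j hij
    have hred : RedOK ℓ N b (Ideal.Quotient.mk (P i).asIdeal) := by
      refine ⟨Ideal.Quotient.mk_surjective, ?_, ?_, ?_, h4⟩
      · have h7 : Ideal.Quotient.mk (P i).asIdeal (2 : 𝓞 k) ≠ 0 := by
          rw [Ne, Ideal.Quotient.eq_zero_iff_mem]
          exact h3
        have h8 : Ideal.Quotient.mk (P i).asIdeal (2 : 𝓞 k) = 2 := map_ofNat _ 2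
        rw [h8] at h7
        exact h7
      · intro i' j hij
        rw [← Polynomial.map_sub, natDegree_map_of_leadingCoeff_ne_zero _ (hlead i' j hij)]
        exact hb i' j hij
      · rw [← dif_map]
        exact h6
    have hq : 8 * ((Dif b).natDegree + 1) ≤ Fintype.card (𝓞 k ⧸ (P i).asIdeal) := by
      rw [← Nat.card_eq_fintype_card]
      exact h2
    have key := prime_count hFGEN hUNI hCRIT hl2 hn hn3 hN (Ideal.Quotient.mk (P i).asIdeal) hred hq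
      G (fun H σ => hG ⟨hℓ⟩ (P i) (𝓞 k ⧸ (P i).asIdeal) (RingHom.id _) Function.surjective_id H h5 σ)
    rw [← hκd] at key
    filter_upwards [key] with m hm hm1 hm2
    have h7 := hm hm1 hm2
    rw [← Nat.card_eq_fintype_card] at h7
    have h8 : c * (Nat.card (𝓞 k ⧸ (P i).asIdeal) : ℝ) ^ m ≤
        κ / 4 * (Nat.card (𝓞 k ⧸ (P i).asIdeal) : ℝ) ^ m :=
      mul_le_mul_of_nonneg_right hcκ (by positivity)
    refine h8.trans (h7.trans ?_)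
    norm_cast
    apply Set.ncard_le_ncard
    · rintro E ⟨hE1, hE2, hE3, hE4⟩
      exact ⟨hE1, hE2, hE4⟩
    · obtain ⟨-, hfin⟩ := Pool.Agent.Y188.NZ.card_monic (𝓞 k ⧸ (P i).asIdeal) m
      have h6 : ({p : (𝓞 k ⧸ (P i).asIdeal)[X] | p.Monic ∧ p.natDegree = m}).Finite := hfin
      exact h6.subset fun E hE => ⟨hE.1, hE.2.1⟩
  have hall := eventually_all.2 hcount
  haveI : Finite (𝓞 k ⧸ (⨅ i, I i)) := Ideal.finiteQuotientOfFreeOfNeBot _ hM0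
  haveI : Nontrivial (𝓞 k ⧸ (⨅ i, I i)) := by
    rw [Ideal.Quotient.nontrivial_iff]
    intro h
    have h1 : (⨅ i, I i) ≤ I ⟨0, hr1⟩ := iInf_le _ _
    rw [h] at h1
    exact (hImax ⟨0, hr1⟩).ne_top (top_le_iff.1 h1)
  filter_upwards [hall] with m hm hm1 hm2
  have h1 := hCNT (𝓞 k) r hr1 I hImax hIne hIfin m (fun i => {E : (𝓞 k ⧸ I i)[X] |
        ∀ D : (𝓞 k)[X], D.Monic → D.map (Ideal.Quotient.mk (I i)) = E →
          G D ∧ GoodRed ℓ N b D}) c hc0.le hc1 (fun i => hm i hm1 hm2)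
  have h2 : (1 - η) * (Nat.card (𝓞 k ⧸ (⨅ i, I i)) : ℝ) ^ m ≤
      (1 - (1 - c) ^ r) * (Nat.card (𝓞 k ⧸ (⨅ i, I i)) : ℝ) ^ m :=
    mul_le_mul_of_nonneg_right (by linarith) (by positivity)
  refine h2.trans (h1.trans ?_)
  norm_cast
  apply Set.ncard_le_ncard
  · rintro E ⟨hE1, hE2, i, hE3⟩
    exact ⟨hE1, hE2, fun D hD hDE => hE3 D hDE D hD rfl⟩
  · obtain ⟨-, hfin⟩ := Pool.Agent.Y188.NZ.card_monic (𝓞 k ⧸ (⨅ i, I i)) m
    have h6 : ({p : (𝓞 k ⧸ (⨅ i, I i))[X] | p.Monic ∧ p.natDegree = m}).Finite := hfin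
    exact h6.subset fun E hE => ⟨hE.1, hE.2.1⟩

end Pool.Agent.Y164.NZ
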