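import Pool.Agent.Y164.NZ.Stm2
import Pool.Agent.Y164.SZ.Imp

/-!
Twists with trivial kernel, over a discrete valuation ring.
-/

set_option autoImplicit false
set_option linter.all false

open Polynomial IsDedekindDomain
open scoped Classical

namespace Pool.Agent.Y164.NZ

open Finset
open Pool.Agent.Y164.SZ
open Pool.Agent.Y713.SE (tDat)
open Pool.Agent.Y713.SE.Dat (au)
open Pool.Agent.Y713.Jac (J ShaPrimaryTrivial)
open Pool.Agent.Y164.PS (Fam)
open Pool.Agent.Y164.HG (cur)

/-- the conclusion for the curve over the fraction field -/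
def Good' {O k : Type} [CommRing O] [Field k] [Algebra O k] (ℓ : ℕ) (K : Type) [Field K]
    [Algebra k[X] K] [IsFractionRing k[X] K] {n : ℕ} (b : Fin n → O[X]) (D : O[X]) : Prop :=
  Good ℓ K (fun i => (b i).map (algebraMap O k)) (D.map (algebraMap O k))

section
variable {ℓ : ℕ} [hℓ : Fact ℓ.Prime]
variable {O k F K : Type} [CommRing O] [IsDomain O] [IsDiscreteValuationRing O]
    [Field k] [Algebra O k] [IsFractionRing O k] [Field F] [Fintype F] [DecidableEq F]
    [Field K] [Algebra k[X] K] [IsFractionRing k[X] K]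
variable {n : ℕ} {b : Fin n → O[X]} {N : ℕ} {ρ : O →+* F} (H : Geo ℓ (fun i => (b i).map ρ) N)

include H in
theorem imp_good (hABS : S_ABS) (hLINK : S_LINK) (hρ : Function.Surjective ρ)
    (hlc : ∀ i j, i ≠ j → IsUnit (b i - b j).leadingCoeff)
    {ζ : k} (hζ : IsPrimitiveRoot ζ ℓ) (σ : Tau (fun i => (b i).map ρ) → ZMod ℓ) :
    Imp (H.dat σ) (QQ (fun i => (b i).map ρ)) (fun E => ¬ ℓ ∣ E.natDegree →
      ∀ D : O[X], D.Monic → D.map ρ = E → Good' (k := k) ℓ K b D) := by
  intro ι _ T hR hcl hpar htr hdE D hDm hDE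
  have hinj : Function.Injective (algebraMap k[X] K) := IsFractionRing.injective k[X] K
  have hkO : Function.Injective (algebraMap O k) := IsFractionRing.injective O k
  have hmapO : Function.Injective (Polynomial.map (algebraMap O k)) := map_injective _ hkO
  have hlk : ((ℓ : ℕ) : k) ≠ 0 := by
    intro h
    apply H.hlk
    have h1 : ((ℓ : ℕ) : O) = 0 := hkO (by rw [map_natCast, map_zero, h])
    rw [← map_natCast ρ, h1, map_zero]
  have hδ : algebraMap k[X] K (D.map (algebraMap O k)) ≠ 0 :=
    (map_ne_zero_iff _ hinj).2 ((map_ne_zero_iff (mapRingHom (algebraMap O k)) hmapO).2 hDm.ne_zero)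
  have he : Function.Injective (fun i => algebraMap k[X] K ((b i).map (algebraMap O k))) := by
    intro i j hij
    by_contra hne
    have h1 : b i = b j := hmapO (hinj hij)
    exact H.ne hne (by rw [h1, sub_self])
  obtain ⟨D0, hD⟩ : ∃ D0 : Y713.SE.Dat ℓ n K, D0 = tDat K hℓ.out hlk hζ hδ he H.hn :=
    ⟨_, rfl⟩
  have hDδ : D0.δ = algebraMap k[X] K (D.map (algebraMap O k)) := by rw [hD]; rfl
  have hDe : ∀ i, D0.e i = algebraMap k[X] K ((b i).map (algebraMap O k)) := fun i => by
    rw [hD]; rfl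
  have hf : D0.f = cur K (fun i => (b i).map (algebraMap O k)) (D.map (algebraMap O k)) := by
    rw [Y713.SE.Dat.f, hDδ, cur]
    simp only [hDe]
  obtain ⟨S, L⟩ := hLINK ℓ O k F K ρ hρ n b N H hlc D hDm ι T hR hDE D0 hDδ hDe
  have hpar2 : IsUnit (∑ i, ((T i).natDegree : ZMod ℓ)) := by
    rw [isUnit_iff_ne_zero]
    intro h
    apply hdE
    have hTm : ∀ i ∈ (univ : Finset ι), (T i).Monic := fun i _ => hR.mon (Sum.inl i)
    rw [natDegree_prod_of_monic _ _ hTm, ← ZMod.natCast_eq_zero_iff]
    push_cast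
    exact h
  obtain ⟨p, hexp⟩ := ExpChar.exists K
  haveI := hexp
  haveI : ExpChar (SeparableClosure K) p :=
    expChar_of_injective_algebraMap (algebraMap K (SeparableClosure K)).injective p
  haveI : ∀ v : HeightOneSpectrum k[X], ExpChar (SeparableClosure (v.adicCompletion K)) p := fun v =>
    expChar_of_injective_algebraMap
      (algebraMap K (SeparableClosure (v.adicCompletion K))).injective p
  have key := hABS ℓ k K F n _ N H ι T hR S D0 L σ hcl hpar hpar2 htr (SeparableClosure K) p
    (fun v : HeightOneSpectrum k[X] => SeparableClosure (v.adicCompletion K))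
  unfold Good' Good
  rw [← hf]
  constructor
  · apply D0.sha_primary (R := k[X])
    intro χ hc ht
    obtain ⟨m, Q, -, hQ⟩ := key χ hc ht
    exact ⟨Q, hQ⟩
  · intro x
    obtain ⟨t, y, ht, hy⟩ := Pool.Agent.Y287.SZ.Rk.t ℓ n K D0 (SeparableClosure K) p
      (fun c => ∀ v : HeightOneSpectrum k[X], D0.Triv (v.adicCompletion K)
        (SeparableClosure (v.adicCompletion K)) c)
      (fun v => triv_one D0 (IsSepClosed.lift))
      (fun c Q h v => (h v).div D0 Q) key ((D0.Te K).symm x)
    refine ⟨D0.Te K t, D0.Te K y, ?_, ?_⟩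
    · rw [← map_pow, ht, map_one]
    · rw [← map_pow, ← map_mul, ← hy, MulEquiv.apply_symm_apply]

end

end Pool.Agent.Y164.NZ
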