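import Pool.Agent.Y164.NZ.StmT
import Pool.Agent.Y164.NZ.Stm2
import Pool.Agent.Y164.NZ.Imp

/-!
Tate classes of the twists with trivial kernel, over a discrete valuation ring.
-/

set_option autoImplicit false
set_option linter.all false

open Polynomial IsDedekindDomain
open scoped Classical

namespace Pool.Agent.Y164.NZ

open Finset
open Pool.Agent.Y164.SZ hiding Good
open Pool.Agent.Y713.SE (tDat Pw ov hp)
open Pool.Agent.Y713.SE.Dat (au)
open Pool.Agent.TH115.GD (IsTower Sep sepKΩ)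
open Pool.Agent.Y164.PS (Fam)

section gm
variable {ℓ : ℕ} [hℓ : Fact ℓ.Prime] {k K : Type} [Field k] [Field K] [Algebra k[X] K]
    [IsFractionRing k[X] K] {F : Type} [Field F] [Fintype F] [DecidableEq F] {n : ℕ}
    {a : Fin n → F[X]} {N : ℕ} {H : Geo ℓ a N} {ι : Type} [Fintype ι] {T : ι → F[X]}
    {S : Sys ℓ k K (RR a T)} {D0 : Y713.SE.Dat ℓ n K} (L : Link H T S D0)

include L in
theorem link_val (v : HeightOneSpectrum k[X]) : v.valuation K D0.δ = 1 ∨
    (v.valuation K D0.δ = WithZero.exp (-1 : ℤ) ∧ ∀ i j, i ≠ j →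
      v.valuation K (D0.e i - D0.e j) = 1) := by
  by_cases h : ∀ y, v ≠ S.pl y
  · exact Or.inl (L.vG v h)
  · push Not at h
    obtain ⟨y, rfl⟩ := h
    rcases y with x | s
    · exact Or.inr ⟨L.vT x, L.vTd x⟩
    · exact Or.inl (L.vN s)

include L in
theorem link_gm {P : k[X]} {b : Fin n → k[X]} (hP : P ≠ 0) (hδ : D0.δ = algebraMap k[X] K P)
    (he : ∀ i, D0.e i = algebraMap k[X] K (b i)) :
    Squarefree P ∧ ∀ i j, i ≠ j → IsCoprime P (b i - b j) := by
  have hmem : ∀ (v : HeightOneSpectrum k[X]) (p : k[X]), v.valuation K (algebraMap k[X] K p) = 1 ↔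
      p ∉ v.asIdeal := fun v p => Y713.SE.val_eq_one_iff v p
  have hdvd : ∀ (p : k[X]) (hp1 : Irreducible p) (q : k[X]), p ∣ q ↔ q ∈ (hp p hp1).asIdeal :=
    fun p hp1 q => (Y713.SE.mem_hp ..).symm
  constructor
  · rw [squarefree_iff_no_irreducibles hP]
    rintro p hp1 ⟨q, hq⟩
    rcases link_val L (hp p hp1) with h | ⟨h, -⟩
    · rw [hδ, hmem, ← hdvd] at h
      exact h ⟨p * q, by rw [hq, mul_assoc]⟩
    · have h2 : (hp p hp1).valuation K (algebraMap k[X] K p) = WithZero.exp (-1 : ℤ) :=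
        Y713.SE.val_hp_self ..
      have h3 : (hp p hp1).valuation K (algebraMap k[X] K q) ≤ 1 := (hp p hp1).valuation_le_one q
      rw [hδ, hq, map_mul, map_mul, map_mul, map_mul, h2] at h
      have h4 : WithZero.exp (-1 : ℤ) * WithZero.exp (-1 : ℤ) *
          (hp p hp1).valuation K (algebraMap k[X] K q) ≤
          WithZero.exp (-1 : ℤ) * WithZero.exp (-1 : ℤ) * 1 := mul_le_mul_right h3 _
      rw [h, mul_one, ← WithZero.exp_add, WithZero.exp_le_exp] at h4
      omega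
  · intro i j hij
    apply isCoprime_of_dvd
    · exact fun h => hP h.1
    · intro z hz hz0 hz1 hz2
      obtain ⟨p, hp1, hd⟩ := WfDvdMonoid.exists_irreducible_factor hz hz0
      rcases link_val L (hp p hp1) with h | ⟨-, h⟩
      · rw [hδ, hmem, ← hdvd] at h
        exact h (hd.trans hz1)
      · have h2 := h i j hij
        rw [he, he, ← map_sub, hmem, ← hdvd] at h2
        exact h2 (hd.trans hz2)

end gm

/-- the Kummer classes of the isomorphic curve -/
theorem tm_rel {ℓ n : ℕ} {K : Type} [Field K] (D0 D : Y713.SE.Dat ℓ n K) {u w : ℕ}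
    (hδ : D.δ = 1) (he : ∀ i, D.e i = D0.δ ^ u * D0.e i) (hu : n * u = 1 + ℓ * w)
    (m : Fin n → ℕ) : ∃ c : K, c ≠ 0 ∧ ∀ i, ∃ z : K, z ≠ 0 ∧ Tm D m i = c * z ^ ℓ * Tm D0 m i := by
  have hP : D0.δ ≠ 0 := D0.hδ
  refine ⟨D0.δ ^ (u * ∑ k, m k), pow_ne_zero _ hP, fun i => ⟨(D0.δ ^ (w * m i))⁻¹,
    inv_ne_zero (pow_ne_zero _ hP), ?_⟩⟩
  have hn : 0 < n := D0.n_pos
  have h1 : ∀ k, (if k = i then (D.δ * ∏ j ∈ univ.erase i, (D.e i - D.e j))⁻¹ else D.e i - D.e k) ^
      m k = (D0.δ ^ (u * m k) * (if k = i then ((D0.δ ^ (w * m i))⁻¹) ^ ℓ else 1)) *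
        (if k = i then (D0.δ * ∏ j ∈ univ.erase i, (D0.e i - D0.e j))⁻¹ else D0.e i - D0.e k) ^
          m k := by
    intro k
    by_cases hk : k = i
    · subst hk
      rw [if_pos rfl, if_pos rfl, if_pos rfl, hδ, one_mul]
      have h2 : ∏ j ∈ univ.erase k, (D.e k - D.e j) =
          D0.δ ^ (u * (n - 1)) * ∏ j ∈ univ.erase k, (D0.e k - D0.e j) := by
        rw [pow_mul, show n - 1 = (univ.erase k).card by
          rw [card_erase_of_mem (mem_univ k), card_univ, Fintype.card_fin], ← prod_const,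
          ← prod_mul_distrib]
        refine prod_congr rfl fun j _ => ?_
        rw [he, he]
        ring
      have h3 : ∏ j ∈ univ.erase k, (D0.e k - D0.e j) ≠ 0 := prod_ne_zero_iff.2 fun j hj =>
        sub_ne_zero.2 fun h => (ne_of_mem_erase hj) (D0.he h.symm)
      rw [h2]
      generalize ∏ j ∈ univ.erase k, (D0.e k - D0.e j) = R at h3
      rw [inv_pow, inv_pow, inv_pow, mul_pow, mul_pow]
      have h4 : D0.δ ^ (u * m k) * D0.δ ^ (u * (n - 1) * m k) =
          D0.δ ^ m k * D0.δ ^ (w * m k * ℓ) := by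
        rw [← pow_add, ← pow_add]
        congr 1
        obtain ⟨n', rfl⟩ : ∃ n', n = n' + 1 := ⟨n - 1, by omega⟩
        rw [Nat.add_sub_cancel]
        have : u * m k + u * n' * m k = ((n' + 1) * u) * m k := by ring
        rw [this, hu]
        ring
      have h5 : R ^ m k ≠ 0 := pow_ne_zero _ h3
      have h6 : ∀ j : ℕ, D0.δ ^ j ≠ 0 := fun j => pow_ne_zero _ hP
      rw [← pow_mul, ← pow_mul]
      field_simp
      rw [mul_comm (D0.δ ^ (w * m k * ℓ)), ← h4, mul_comm]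
    · rw [if_neg hk, if_neg hk, if_neg hk, mul_one, he, he, ← mul_sub, mul_pow, ← pow_mul]
  unfold Tm
  rw [prod_congr rfl fun k _ => h1 k, prod_mul_distrib, prod_mul_distrib, prod_pow_eq_pow_sum,
    ← mul_sum, prod_ite_eq' univ i (fun _ => ((D0.δ ^ (w * m i))⁻¹) ^ ℓ), if_pos (mem_univ i)]

/-- the monic model of the twist -/
noncomputable def mcur {k : Type} [Field k] (K : Type) [Field K] [Algebra k[X] K] {n : ℕ}
    (b : Fin n → k[X]) (u : ℕ) (D : k[X]) : K[X] :=
  ∏ i, (X - C (algebraMap k[X] K (D ^ u * b i)))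

/-- the Tate conjecture at `ℓ` for the twist by `D` -/
def TateD {k : Type} [Field k] (ℓ : ℕ) (k' K Ft : Type) [Field k'] [Field K] [Algebra k[X] K]
    [Field Ft] [Algebra k'[X] Ft] [IsFractionRing k'[X] Ft] [Algebra K Ft] {n : ℕ}
    (b : Fin n → k[X]) (D : k[X]) : Prop :=
  ∀ u : ℕ, n * u ≡ 1 [MOD ℓ] → Pool.Agent.Y713.Tate.TateAt (F := Ft) ℓ k' (mcur K b u D)

/-- the statements used -/
structure Lems : Prop where
  fix : S_FIX
  tau : S_TAU
  ext : S_EXT
  tate : S_TATE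
  good : S_GOOD
  twist : S_TWIST
  coll : S_COLL
  abs2 : S_ABS2

section
variable {ℓ : ℕ} [hℓ : Fact ℓ.Prime]
variable {O k F k' K Ft : Type} [CommRing O] [IsDomain O] [IsDiscreteValuationRing O]
    [Field k] [CharZero k] [Algebra O k] [IsFractionRing O k] [Field F] [Fintype F] [DecidableEq F]
    [Field K] [Algebra k[X] K] [IsFractionRing k[X] K] [Field k'] [Algebra k k']
    [Field Ft] [Algebra k'[X] Ft] [IsFractionRing k'[X] Ft] [Algebra K Ft]
variable {n : ℕ} {b : Fin n → O[X]} {N : ℕ} {ρ : O →+* F} (H : Geo ℓ (fun i => (b i).map ρ) N)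

include H in
theorem imp_tate (h : Lems) (hLINK : S_LINK) (hT : IsTower k k' K Ft) (hρ : Function.Surjective ρ)
    (hlc : ∀ i j, i ≠ j → IsUnit (b i - b j).leadingCoeff)
    {ζ : k} (hζ : IsPrimitiveRoot ζ ℓ) (σ : Tau (fun i => (b i).map ρ) → ZMod ℓ) :
    Imp (H.dat σ) (QQ (fun i => (b i).map ρ)) (fun E => ¬ ℓ ∣ E.natDegree →
      ∀ D : O[X], D.Monic → D.map ρ = E →
        TateD (Ft := Ft) ℓ k' K (fun i => (b i).map (algebraMap O k)) (D.map (algebraMap O k))) := by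
  intro ι _ T hR hcl hpar htr hdE D hDm hDE u hu
  have hinj : Function.Injective (algebraMap k[X] K) := IsFractionRing.injective k[X] K
  have hkO : Function.Injective (algebraMap O k) := IsFractionRing.injective O k
  have hmapO : Function.Injective (Polynomial.map (algebraMap O k)) := map_injective _ hkO
  haveI := hT.sep
  have hl2 := H.hl
  have hlk : ((ℓ : ℕ) : k) ≠ 0 := by
    intro h
    apply H.hlk
    have h1 : ((ℓ : ℕ) : O) = 0 := hkO (by rw [map_natCast, map_zero, h])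
    rw [← map_natCast ρ, h1, map_zero]
  have hDk : (D.map (algebraMap O k)).Monic := hDm.map _
  have hδ : algebraMap k[X] K (D.map (algebraMap O k)) ≠ 0 :=
    (map_ne_zero_iff _ hinj).2 hDk.ne_zero
  have he : Function.Injective (fun i => algebraMap k[X] K ((b i).map (algebraMap O k))) := by
    intro i j hij
    by_contra hne
    have h1 : b i = b j := hmapO (hinj hij)
    exact H.ne hne (by rw [h1, sub_self])
  have he' : Function.Injective (fun i => algebraMap k[X] K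
      ((D.map (algebraMap O k)) ^ u * (b i).map (algebraMap O k))) := by
    intro i j hij
    apply he
    have h1 := hinj hij
    have h2 := mul_left_cancel₀ (pow_ne_zero u hDk.ne_zero) h1
    exact congrArg _ h2
  obtain ⟨D0, hD⟩ : ∃ D0 : Y713.SE.Dat ℓ n K, D0 = tDat K hℓ.out hlk hζ hδ he H.hn :=
    ⟨_, rfl⟩
  obtain ⟨D1, hD1⟩ : ∃ D1 : Y713.SE.Dat ℓ n K, D1 = tDat K hℓ.out hlk hζ one_ne_zero he' H.hn :=
    ⟨_, rfl⟩
  have hDδ : D0.δ = algebraMap k[X] K (D.map (algebraMap O k)) := by rw [hD]; rfl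
  have hDe : ∀ i, D0.e i = algebraMap k[X] K ((b i).map (algebraMap O k)) := fun i => by
    rw [hD]; rfl
  have hD1δ : D1.δ = 1 := by rw [hD1]; rfl
  have hD1e : ∀ i, D1.e i = algebraMap k[X] K
      ((D.map (algebraMap O k)) ^ u * (b i).map (algebraMap O k)) := fun i => by rw [hD1]; rfl
  have hf : D1.f = mcur K (fun i => (b i).map (algebraMap O k)) u (D.map (algebraMap O k)) := by
    rw [Y713.SE.Dat.f, hD1δ, C_1, one_mul, mcur]
    simp only [hD1e]
  obtain ⟨S, L⟩ := hLINK ℓ O k F K ρ hρ n b N H hlc D hDm ι T hR hDE D0 hDδ hDe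
  have hTm : ∀ i ∈ (univ : Finset ι), (T i).Monic := fun i _ => hR.mon (Sum.inl i)
  have hpar2 : IsUnit (∑ i, ((T i).natDegree : ZMod ℓ)) := by
    rw [isUnit_iff_ne_zero]
    intro h
    apply hdE
    rw [natDegree_prod_of_monic _ _ hTm, ← ZMod.natCast_eq_zero_iff]
    push_cast
    exact h
  -- `n u = 1 + ℓ w`
  have hl3 : 3 ≤ ℓ := by
    have := hℓ.out.two_le
    omega
  have hnu : n * u % ℓ = 1 := by
    have h1 : n * u % ℓ = 1 % ℓ := hu
    rwa [Nat.mod_eq_of_lt (show 1 < ℓ by omega)] at h1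
  obtain ⟨w, hw⟩ : ∃ w, n * u = 1 + ℓ * w := ⟨n * u / ℓ, by
    have := Nat.div_add_mod (n * u) ℓ
    omega⟩
  have hlu : ¬ ℓ ∣ u := by
    intro h
    have h1 : ℓ ∣ n * u := h.mul_left n
    have h2 := Nat.mod_eq_zero_of_dvd h1
    omega
  obtain ⟨hsq, hcop⟩ := link_gm L hDk.ne_zero hDδ hDe
  have hdeg : ¬ ℓ ∣ (D.map (algebraMap O k)).natDegree := by
    rw [hDm.natDegree_map]
    rw [← hDE, hDm.natDegree_map] at hdE
    exact hdE
  have hG : Gm D1 (D.map (algebraMap O k)) u (fun i => (b i).map (algebraMap O k)) :=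
    ⟨hD1δ, hD1e, hlu, hDk, hsq, hcop, hdeg, hl2⟩
  have hrel := tm_rel D0 D1 hD1δ (fun i => by rw [hD1e, hDδ, hDe, map_mul, map_pow]) hw
  have hde : ∀ i j, D1.e i - D1.e j = D0.δ ^ u * (D0.e i - D0.e j) := by
    intro i j
    rw [hD1e, hD1e, hDδ, hDe, hDe, map_mul, map_mul, map_pow]
    ring
  haveI : IsSepClosure K (Sep Ft) := sepKΩ hT.map
  haveI : IsGalois K (Sep Ft) := inferInstance
  obtain ⟨p, hexp⟩ := ExpChar.exists (Sep Ft)
  haveI := hexp
  rw [← hf]
  refine h.tate ℓ n k k' K Ft hT.map D1 _ u _ hG (fun z hz => ?_)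
  obtain ⟨χ, hχ⟩ := h.ext ℓ n k k' K Ft (Sep Ft) hT.map D1 _ u _ hG z hz
  obtain ⟨m, Q, hQ, hc⟩ := h.abs2 ℓ k K F n _ N H ι T hR S D0 D1 L hrel σ hcl hpar hpar2 htr
    (Sep Ft) p χ hχ.coc
    (by
      intro v hv kd
      refine h.good ℓ n k k' K Ft (Sep Ft) hT.map D1 z hz χ hχ kd hD1δ v (fun i j hij => ?_)
      rw [hde, map_mul, map_pow, L.vG v hv, L.vGd v hv i j hij, one_pow, one_mul])
    (by
      intro x
      refine h.twist ℓ n k k' K Ft (Sep Ft) hT.map D1 hl2 ζ hζ z hz χ hχ hD1δ u hlu _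
        (fun i j hij => ?_)
      rw [hde, map_mul, map_pow, L.vT x, L.vTd x i j hij, mul_one, ← WithZero.exp_nsmul]
      congr 1
      simp)
    (by
      intro s
      have hn3 := H.hn3
      have hpq : H.p s ≠ H.q s := ne_of_lt (H.lt s)
      obtain ⟨c, hc1, hc2⟩ : ∃ c, c ≠ H.p s ∧ c ≠ H.q s := by
        have h1 : ({H.p s, H.q s} : Finset (Fin n)).card < (univ : Finset (Fin n)).card := by
          rw [card_univ, Fintype.card_fin]
          exact lt_of_le_of_lt card_le_two (by omega)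
        obtain ⟨c, -, hc⟩ := exists_mem_notMem_of_card_lt_card h1
        rw [mem_insert, mem_singleton, not_or] at hc
        exact ⟨c, hc⟩
      refine h.coll ℓ n k k' K Ft (Sep Ft) hT.map D1 hl2 ζ hζ z hz χ hχ hD1δ _ (H.p s) (H.q s) c
        hpq hc1 hc2 (fun i j hij h1 h2 => ?_) ?_
      · rw [hde, map_mul, map_pow, L.vN s, L.vNo s i j hij h1 h2, one_pow, one_mul]
      · rw [hde, map_mul, map_pow, L.vN s, L.vNd s, one_pow, one_mul])
  refine ⟨m, Q, hQ, fun τ => ?_⟩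
  rw [hχ.res τ (τ.restrictScalars K) (fun x => rfl), hc]
  rfl

end

end Pool.Agent.Y164.NZ
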