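import Pool.Agent.Y164.NZ.Fin2
import Pool.Agent.Y164.NZ.ImpT

/-!
The theorem for number fields: the final form.
-/

set_option autoImplicit false
set_option linter.all false

open Polynomial IsDedekindDomain NumberField
open scoped Classical

namespace Pool.Agent.Y164.NZ

open Finset Filter
open Pool.Agent.Y164.SZ
open Pool.Agent.TH115.GD (IsTower)

/-- the conclusion for `D` over the number field -/
def Concl {k : Type} [Field k] (ℓ : ℕ) (k' K Ft : Type) [Field k'] [Field K] [Algebra k[X] K]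
    [IsFractionRing k[X] K] [Field Ft] [Algebra k'[X] Ft] [IsFractionRing k'[X] Ft] [Algebra K Ft]
    {n : ℕ} (b : Fin n → k[X]) (D : k[X]) : Prop :=
  Good ℓ K b D ∧ TateD (Ft := Ft) ℓ k' K b D

theorem final (hFGEN : S_FGEN) (hUNI : S_UNI) (hCRIT : S_CRIT) (hCNT : S_CNT) (hNF : S_NF)
    (hABS : S_ABS) (hLINK : S_LINK) (hL : Lems)
    {ℓ : ℕ} (hℓ : ℓ.Prime) (hl2 : ℓ ≠ 2) {k : Type} [Field k] [NumberField k] {ζ : k}
    (hζ : IsPrimitiveRoot ζ ℓ) (k' K Ft : Type) [Field k'] [Algebra k k'] [Field K]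
    [Algebra k[X] K] [IsFractionRing k[X] K] [Field Ft] [Algebra k'[X] Ft] [IsFractionRing k'[X] Ft]
    [Algebra K Ft] (hT : IsTower k k' K Ft) {n : ℕ} (hn : ¬ ℓ ∣ n) (hn3 : 3 ≤ n) {N : ℕ}
    (hN : 1 ≤ N) (b : Fin n → (𝓞 k)[X]) (hb : ∀ i j, i ≠ j → (b i - b j).natDegree = N)
    (hs : Squarefree ((Dif b).map (algebraMap (𝓞 k) k)))
    (η : ℝ) (hη : 0 < η) : ∃ M : Ideal (𝓞 k), M ≠ ⊥ ∧ ∀ᶠ m : ℕ in atTop, ¬ ℓ ∣ m →
      ¬ ℓ ∣ m + n * N → (1 - η) * (Nat.card (𝓞 k ⧸ M) : ℝ) ^ m ≤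
        (({E : (𝓞 k ⧸ M)[X] | E.Monic ∧ E.natDegree = m ∧ ∀ D : (𝓞 k)[X], D.Monic →
          D.map (Ideal.Quotient.mk M) = E →
            Concl (Ft := Ft) ℓ k' K (fun i => (b i).map (algebraMap (𝓞 k) k))
              (D.map (algebraMap (𝓞 k) k)) ∧ GoodRed ℓ N b D}).ncard : ℝ) := by
  refine combine hFGEN hUNI hCRIT hCNT hNF hℓ hl2 hζ hn hn3 hN b hb hs _ ?_ η hη
  intro _ P F _ _ _ e he H hlc σ
  refine prime_gen P e he H hlc (Concl (Ft := Ft) ℓ k' K) ?_ σ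
  intro O _ _ _ _ _ ρ hρ b' H' hlc' σ' ι _ T hR hcl hpar htr hdE D hDm hDE
  exact ⟨imp_good H' hABS hLINK hρ hlc' hζ σ' ι T hR hcl hpar htr hdE D hDm hDE,
    imp_tate H' hL hLINK hT hρ hlc' hζ σ' ι T hR hcl hpar htr hdE D hDm hDE⟩

end Pool.Agent.Y164.NZ
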