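import Pool.Agent.Y164.NZ.Imp

/-!
Twists with trivial kernel, at a prime of a Dedekind domain.
-/

set_option autoImplicit false
set_option linter.all false

open Polynomial IsDedekindDomain
open scoped Classical

namespace Pool.Agent.Y164.NZ

open Finset
open Pool.Agent.Y164.SZ

section
variable {A k : Type} [CommRing A] [IsDomain A] [IsDedekindDomain A] [Field k] [Algebra A k]
  [IsFractionRing A k] (P : HeightOneSpectrum A)

theorem pc_le : P.asIdeal.primeCompl ≤ nonZeroDivisors A := by
  intro x hx
  rw [mem_nonZeroDivisors_iff_ne_zero]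
  rintro rfl
  exact hx P.asIdeal.zero_mem

/-- the local ring in the field of fractions -/
noncomputable def toK : Localization.AtPrime P.asIdeal →+* k :=
  IsLocalization.lift (M := P.asIdeal.primeCompl) (g := algebraMap A k) (fun y => by
    rw [isUnit_iff_ne_zero]
    intro h
    have h1 : (y : A) = 0 := by
      apply IsFractionRing.injective A k
      rw [h, map_zero]
    exact y.2 (h1 ▸ P.asIdeal.zero_mem))

theorem toK_alg (x : A) : toK (k := k) P (algebraMap A (Localization.AtPrime P.asIdeal) x) =
    algebraMap A k x := IsLocalization.lift_eq _ x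

/-- the reduction -/
noncomputable def toF : Localization.AtPrime P.asIdeal →+* A ⧸ P.asIdeal :=
  IsLocalization.lift (M := P.asIdeal.primeCompl) (g := Ideal.Quotient.mk P.asIdeal) (fun y => by
    haveI := P.isMaximal
    letI := Ideal.Quotient.field P.asIdeal
    have h : (Ideal.Quotient.mk P.asIdeal) (y : A) ≠ 0 := by
      rw [Ne, Ideal.Quotient.eq_zero_iff_mem]
      exact y.2
    exact isUnit_iff_ne_zero.2 h)

theorem toF_alg (x : A) : toF P (algebraMap A (Localization.AtPrime P.asIdeal) x) =
    Ideal.Quotient.mk P.asIdeal x := IsLocalization.lift_eq _ x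

theorem toF_surj : Function.Surjective (toF P) := by
  intro y
  obtain ⟨x, rfl⟩ := Ideal.Quotient.mk_surjective y
  exact ⟨_, toF_alg P x⟩

theorem prime_gen {ℓ : ℕ} [hℓ : Fact ℓ.Prime] {F : Type} [Field F] [Fintype F] [DecidableEq F]
    (e : A ⧸ P.asIdeal →+* F) (he : Function.Surjective e)
    {n : ℕ} {b : Fin n → A[X]} {N : ℕ}
    (H : Geo ℓ (fun i => (b i).map (e.comp (Ideal.Quotient.mk P.asIdeal))) N)
    (hlc : ∀ i j, i ≠ j → (b i - b j).leadingCoeff ∉ P.asIdeal)
    (Pred : (Fin n → k[X]) → k[X] → Prop)
    (hI : ∀ (O : Type) [CommRing O] [IsDomain O] [IsDiscreteValuationRing O] [Algebra O k]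
      [IsFractionRing O k] (ρ : O →+* F) (_ : Function.Surjective ρ) (b' : Fin n → O[X])
      (H : Geo ℓ (fun i => (b' i).map ρ) N) (_ : ∀ i j, i ≠ j → IsUnit (b' i - b' j).leadingCoeff)
      (σ : Tau (fun i => (b' i).map ρ) → ZMod ℓ),
      Imp (H.dat σ) (QQ (fun i => (b' i).map ρ)) (fun E => ¬ ℓ ∣ E.natDegree →
        ∀ D : O[X], D.Monic → D.map ρ = E →
          Pred (fun i => (b' i).map (algebraMap O k)) (D.map (algebraMap O k))))
    (σ : Tau (fun i => (b i).map (e.comp (Ideal.Quotient.mk P.asIdeal))) → ZMod ℓ) :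
    Imp (H.dat σ) (QQ (fun i => (b i).map (e.comp (Ideal.Quotient.mk P.asIdeal))))
      (fun E => ¬ ℓ ∣ E.natDegree → ∀ D : A[X], D.Monic →
        D.map (e.comp (Ideal.Quotient.mk P.asIdeal)) = E →
          Pred (fun i => (b i).map (algebraMap A k)) (D.map (algebraMap A k))) := by
  haveI : IsDomain (Localization.AtPrime P.asIdeal) :=
    IsLocalization.isDomain_localization (pc_le P)
  haveI : IsDiscreteValuationRing (Localization.AtPrime P.asIdeal) :=
    IsLocalization.AtPrime.isDiscreteValuationRing_of_dedekind_domain A P.ne_bot _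
  letI : Algebra (Localization.AtPrime P.asIdeal) k := (toK P).toAlgebra
  haveI : IsScalarTower A (Localization.AtPrime P.asIdeal) k :=
    IsScalarTower.of_algebraMap_eq fun x => (toK_alg P x).symm
  haveI : IsFractionRing (Localization.AtPrime P.asIdeal) k :=
    IsFractionRing.isFractionRing_of_isDomain_of_isLocalization P.asIdeal.primeCompl _ _
  obtain ⟨b', hb'⟩ : ∃ b' : Fin n → (Localization.AtPrime P.asIdeal)[X],
      b' = fun i => (b i).map (algebraMap A _) := ⟨_, rfl⟩
  have hbr : (fun i => (b' i).map (e.comp (toF P))) =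
      fun i => (b i).map (e.comp (Ideal.Quotient.mk P.asIdeal)) := by
    funext i
    rw [hb', Polynomial.map_map]
    congr 1
    ext x
    simp only [RingHom.comp_apply, toF_alg]
  have hlc' : ∀ i j, i ≠ j → IsUnit (b' i - b' j).leadingCoeff := by
    intro i j hij
    have h1 : b' i - b' j = (b i - b j).map (algebraMap A _) := by
      rw [hb', Polynomial.map_sub]
    have h2 : algebraMap A (Localization.AtPrime P.asIdeal) (b i - b j).leadingCoeff ≠ 0 := by
      intro h
      have h3 : (b i - b j).leadingCoeff = 0 := by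
        apply IsLocalization.injective (Localization.AtPrime P.asIdeal) (pc_le P)
        rw [h, map_zero]
      exact hlc i j hij (h3 ▸ P.asIdeal.zero_mem)
    rw [h1, leadingCoeff_map_of_leadingCoeff_ne_zero _ h2]
    exact IsLocalization.map_units (M := P.asIdeal.primeCompl) _ ⟨_, hlc i j hij⟩
  have key : ∀ (a : Fin n → F[X]) (ha : a = fun i => (b' i).map (e.comp (toF P))) (H : Geo ℓ a N)
      (σ : Tau a → ZMod ℓ), Imp (H.dat σ) (QQ a) (fun E => ¬ ℓ ∣ E.natDegree →
        ∀ D : (Localization.AtPrime P.asIdeal)[X], D.Monic → D.map (e.comp (toF P)) = E →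
          Pred (fun i => (b' i).map (algebraMap _ k)) (D.map (algebraMap _ k))) := by
    intro a ha
    subst ha
    intro H σ
    exact hI _ (e.comp (toF P)) (he.comp (toF_surj P)) b' H hlc' σ
  intro ι _ T hR hcl hpar htr hdE D hDm hDE
  have h1 := key _ hbr.symm H σ ι T hR hcl hpar htr hdE (D.map (algebraMap A _)) (hDm.map _) (by
    rw [Polynomial.map_map, ← hDE]
    congr 1
    ext x
    simp only [RingHom.comp_apply, toF_alg])
  have h2 : ∀ p : A[X], (p.map (algebraMap A (Localization.AtPrime P.asIdeal))).map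
      (algebraMap (Localization.AtPrime P.asIdeal) k) = p.map (algebraMap A k) := by
    intro p
    rw [Polynomial.map_map, ← IsScalarTower.algebraMap_eq]
  have h3 : (fun i => (b' i).map (algebraMap (Localization.AtPrime P.asIdeal) k)) =
      fun i => (b i).map (algebraMap A k) := by
    funext i
    rw [hb', h2]
  rw [h2, h3] at h1
  exact h1

end

end Pool.Agent.Y164.NZ
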