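import Pool.Agent.Y188.NZ.Cnt

/-!
Transfer: a property of monic polynomials over the residue fields which holds for a positive proportion,
uniform in the prime, holds modulo one of finitely many primes for the proportion `1 - η`.
-/

set_option autoImplicit false
set_option linter.all false

open Polynomial IsDedekindDomain NumberField
open scoped Classical

namespace Pool.Agent.Y164.NZ

open Finset Filter

section
variable {A k : Type} [Field A] [NumberField A] [Field k] [NumberField k] [Algebra A k]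

/-- `G p` is a set of polynomials over `𝓞 A ⧸ p`; `S` a set of degrees; `Z` an infinite set of primes. -/
theorem transfer0 (Z : Set (HeightOneSpectrum (𝓞 A))) (hZ : Z.Infinite) (S : Set ℕ)
    (G : ∀ p : HeightOneSpectrum (𝓞 A), Set (𝓞 A ⧸ p.asIdeal)[X]) {c : ℝ} (hc : 0 < c)
    (hG : ∀ p ∈ Z, ∀ᶠ m : ℕ in atTop, m ∈ S → c * (Nat.card (𝓞 A ⧸ p.asIdeal) : ℝ) ^ m ≤
      (({E : (𝓞 A ⧸ p.asIdeal)[X] | E.Monic ∧ E.natDegree = m ∧ E ∈ G p}).ncard : ℝ))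
    (η : ℝ) (hη : 0 < η) :
    ∃ M : Ideal (𝓞 A), M ≠ ⊥ ∧ ∀ᶠ m : ℕ in atTop, m ∈ S →
      (1 - η) * (Nat.card (𝓞 A ⧸ M) : ℝ) ^ m ≤
        (({E : (𝓞 A ⧸ M)[X] | E.Monic ∧ E.natDegree = m ∧ ∃ p ∈ Z, M ≤ p.asIdeal ∧
          ∀ D : (𝓞 A)[X], D.map (Ideal.Quotient.mk M) = E →
            D.map (Ideal.Quotient.mk p.asIdeal) ∈ G p}).ncard : ℝ) := by
  obtain ⟨c', hc'⟩ : ∃ c' : ℝ, c' = min c 1 := ⟨_, rfl⟩
  have hc0 : 0 < c' := hc' ▸ lt_min hc one_pos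
  have hc1 : c' ≤ 1 := hc' ▸ min_le_right _ _
  have hcc : c' ≤ c := hc' ▸ min_le_left _ _
  obtain ⟨r, hr⟩ := exists_pow_lt_of_lt_one hη (show 1 - c' < 1 by linarith)
  obtain ⟨r, hr1, hr⟩ : ∃ r : ℕ, 1 ≤ r ∧ (1 - c') ^ r < η :=
    ⟨r + 1, by omega, lt_of_le_of_lt (pow_le_pow_of_le_one (by linarith) (by linarith)
      (Nat.le_succ r)) hr⟩
  obtain ⟨P, hPinj, hP⟩ : ∃ P : Fin r → HeightOneSpectrum (𝓞 A), Function.Injective P ∧
      ∀ i, P i ∈ Z := by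
    refine ⟨fun i => (hZ.natEmbedding _ i.1).1, ?_, fun i => (hZ.natEmbedding _ i.1).2⟩
    intro i j hij
    exact Fin.ext ((hZ.natEmbedding _).injective (Subtype.ext hij))
  obtain ⟨I, hI⟩ : ∃ I : Fin r → Ideal (𝓞 A), I = fun i => (P i).asIdeal := ⟨_, rfl⟩
  have hImax : ∀ i, (I i).IsMaximal := fun i => by rw [hI]; exact (P i).isMaximal
  have hIne : ∀ i j, i ≠ j → I i ≠ I j := by
    intro i j hij h
    apply hij
    apply hPinj
    apply HeightOneSpectrum.ext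
    rw [hI] at h
    exact h
  have hIfin : ∀ i, Finite (𝓞 A ⧸ I i) := fun i => by
    rw [hI]
    exact Ideal.finiteQuotientOfFreeOfNeBot _ (P i).ne_bot
  have hM0 : (⨅ i, I i) ≠ ⊥ := by
    have h1 : ∏ i, I i ≤ ⨅ i, I i := by
      rw [← Finset.inf_univ_eq_iInf]
      exact Ideal.prod_le_inf
    have h2 : ∏ i, I i ≠ ⊥ := by
      rw [← Ideal.zero_eq_bot]
      refine prod_ne_zero_iff.2 fun i _ => ?_
      rw [hI]
      exact (P i).ne_bot
    intro h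
    rw [h] at h1
    exact h2 (le_bot_iff.1 h1)
  refine ⟨⨅ i, I i, hM0, ?_⟩
  subst hI
  have hall := eventually_all.2 fun i => hG (P i) (hP i)
  haveI : Finite (𝓞 A ⧸ (⨅ i, (P i).asIdeal)) := Ideal.finiteQuotientOfFreeOfNeBot _ hM0
  haveI : Nontrivial (𝓞 A ⧸ (⨅ i, (P i).asIdeal)) := by
    rw [Ideal.Quotient.nontrivial_iff]
    intro h
    have h1 : (⨅ i, (P i).asIdeal) ≤ (P ⟨0, hr1⟩).asIdeal := iInf_le _ _
    rw [h] at h1
    exact (hImax ⟨0, hr1⟩).ne_top (top_le_iff.1 h1)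
  filter_upwards [hall] with m hm hmS
  have h1 := Pool.Agent.Y188.NZ.t (𝓞 A) r hr1 (fun i => (P i).asIdeal) hImax hIne hIfin m
    (fun i => G (P i)) c' hc0.le hc1 (fun i =>
      (mul_le_mul_of_nonneg_right hcc (by positivity)).trans (hm i hmS))
  have h2 : (1 - η) * (Nat.card (𝓞 A ⧸ (⨅ i, (P i).asIdeal)) : ℝ) ^ m ≤
      (1 - (1 - c') ^ r) * (Nat.card (𝓞 A ⧸ (⨅ i, (P i).asIdeal)) : ℝ) ^ m :=
    mul_le_mul_of_nonneg_right (by linarith) (by positivity)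
  refine h2.trans (h1.trans ?_)
  norm_cast
  apply Set.ncard_le_ncard
  · rintro E ⟨hE1, hE2, i, hE3⟩
    exact ⟨hE1, hE2, P i, hP i, iInf_le _ _, hE3⟩
  · obtain ⟨-, hfin⟩ := Pool.Agent.Y188.NZ.card_monic (𝓞 A ⧸ (⨅ i, (P i).asIdeal)) m
    have h6 : ({p : (𝓞 A ⧸ (⨅ i, (P i).asIdeal))[X] | p.Monic ∧ p.natDegree = m}).Finite := hfin
    exact h6.subset fun E hE => ⟨hE.1, hE.2.1⟩

end

end Pool.Agent.Y164.NZ
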