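import Pool.Agent.Y164.NZ.Fin4
import Pool.Agent.Y164.NZ.Trf0
import Pool.Agent.Y164.HG.Cla
import Pool.Agent.Y785.NZ.Uni

/-!
Hyperelliptic curves: reductions modulo primes of number fields.
-/

set_option autoImplicit false
set_option linter.all false

open Polynomial IsDedekindDomain NumberField
open scoped Classical

namespace Pool.Agent.Y164.NZ

open Finset Filter
open Pool.Agent.Y164.HG (tw)

section
variable {A k : Type} [Field A] [NumberField A] [Field k] [NumberField k] [Algebra A k]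

/-- good primes of `A` -/
theorem nf_two (hi : IsSquare (-1 : k)) {n N : ℕ} (hN : 1 ≤ N)
    (b : Fin n → (𝓞 A)[X]) (hb : ∀ i j, i ≠ j → (b i - b j).natDegree = N)
    (hsq : Squarefree ((Dif b).map (algebraMap (𝓞 A) A))) (X : ℕ) :
    {P : HeightOneSpectrum (𝓞 A) | (Finite (𝓞 A ⧸ P.asIdeal) ∧ X ≤ Nat.card (𝓞 A ⧸ P.asIdeal) ∧
      (2 : 𝓞 A) ∉ P.asIdeal ∧ IsSquare (-1 : 𝓞 A ⧸ P.asIdeal) ∧
      (∀ i j, i ≠ j → (b i - b j).leadingCoeff ∉ P.asIdeal) ∧
      Squarefree ((Dif b).map (Ideal.Quotient.mk P.asIdeal))) ∧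
      ∃ (Q : HeightOneSpectrum (𝓞 k)) (e : 𝓞 k ⧸ Q.asIdeal →+* 𝓞 A ⧸ P.asIdeal),
        Abv P Q e}.Infinite := by
  obtain ⟨c, A', B, hc0, hAB⟩ := Pool.Agent.Y665.NZ.bezout hsq
  have hlc : ∀ i j, i ≠ j → (b i - b j).leadingCoeff ≠ 0 := by
    intro i j hij h0
    rw [leadingCoeff_eq_zero] at h0
    have := hb i j hij
    rw [h0, natDegree_zero] at this
    omega
  have hbad : ({P : HeightOneSpectrum (𝓞 A) | (2 : 𝓞 A) ∈ P.asIdeal} ∪
      {P : HeightOneSpectrum (𝓞 A) | c ∈ P.asIdeal} ∪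
      {P : HeightOneSpectrum (𝓞 A) | Ideal.absNorm P.asIdeal ≤ X} ∪
      ⋃ x : Fin n × Fin n, {P : HeightOneSpectrum (𝓞 A) |
        x.1 ≠ x.2 ∧ (b x.1 - b x.2).leadingCoeff ∈ P.asIdeal}).Finite := by
    refine (((Pool.Agent.Y665.NZ.fin_mem two_ne_zero).union
      (Pool.Agent.Y665.NZ.fin_mem hc0)).union (Pool.Agent.Y665.NZ.fin_norm X)).union
        (Set.finite_iUnion fun x => ?_)
    by_cases hx : x.1 = x.2
    · refine Set.Finite.subset Set.finite_empty ?_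
      rintro P ⟨h, -⟩
      exact absurd hx h
    · exact (Pool.Agent.Y665.NZ.fin_mem (hlc _ _ hx)).subset fun P hP => hP.2
  -- a square root of `-1`
  obtain ⟨s, hs⟩ : ∃ s : 𝓞 k, s * s = -1 := by
    obtain ⟨s, hs⟩ := hi
    have hint : IsIntegral ℤ s := by
      refine ⟨Polynomial.X ^ 2 + 1, ?_, ?_⟩
      · exact monic_X_pow_add (by rw [degree_one]; decide)
      · rw [eval₂_add, eval₂_X_pow, eval₂_one, sq, ← hs, neg_add_cancel]
    obtain ⟨t, ht⟩ : ∃ t : 𝓞 k, algebraMap (𝓞 k) k t = s := ⟨⟨s, hint⟩, rfl⟩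
    refine ⟨t, ?_⟩
    apply RingOfIntegers.coe_injective (K := k)
    have h1 : algebraMap (𝓞 k) k (t * t) = algebraMap (𝓞 k) k (-1) := by
      rw [map_mul, map_neg, map_one, ht]
      exact hs.symm
    exact h1
  refine ((split_inf A k).diff hbad).mono ?_
  rintro P ⟨⟨Q, hQ1, hQ2⟩, hP⟩
  obtain ⟨e, he⟩ := abv P Q hQ1 hQ2
  simp only [Set.mem_union, Set.mem_ofPred_eq, Set.mem_iUnion, not_or,
    not_exists, not_and] at hP
  obtain ⟨⟨⟨h2, hc⟩, hX⟩, hij⟩ := hP
  have hfin : Finite (𝓞 A ⧸ P.asIdeal) := Ideal.finiteQuotientOfFreeOfNeBot P.asIdeal P.ne_bot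
  refine ⟨⟨hfin, ?_, h2, ?_, fun i j h => hij (i, j) h, Pool.Agent.Y665.NZ.sqf_red hAB P hc⟩,
    Q, e, he⟩
  · have e : Nat.card (𝓞 A ⧸ P.asIdeal) = Ideal.absNorm P.asIdeal := rfl
    rw [e]
    omega
  · refine ⟨e (Ideal.Quotient.mk _ s), ?_⟩
    rw [← map_mul, ← map_mul, hs, map_neg, map_neg, map_one, map_one]

/-- the data of a reduction modulo a prime -/
structure RedTwo {A : Type} [CommRing A] {n : ℕ} (N : ℕ) (b : Fin n → A[X]) {F : Type}
    [Field F] (r : A →+* F) : Prop where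
  surj : Function.Surjective r
  two : (2 : F) ≠ 0
  sqr : IsSquare (-1 : F)
  deg : ∀ i j, i ≠ j → ((b i).map r - (b j).map r).natDegree = N
  sq : Squarefree (Dif (fun i => (b i).map r))

/-- for some reduction the twist is good -/
def GoodTwo {A : Type} [CommRing A] {n : ℕ} (N : ℕ) (b : Fin n → A[X]) (D : A[X]) : Prop :=
  ∃ (F : Type) (_ : Field F) (_ : Finite F) (r : A →+* F), RedTwo N b r ∧
    D.map r ∈ tw (fun i => (b i).map r) D.natDegree ∧
    Pool.Agent.Y164.HG.Good (RatFunc F) (fun i => (b i).map r) (D.map r)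

theorem final_two (hi : IsSquare (-1 : k)) {n : ℕ} (hn : Odd n) (hn3 : 3 ≤ n) {N : ℕ}
    (hN : 1 ≤ N) (b : Fin n → (𝓞 A)[X]) (hb : ∀ i j, i ≠ j → (b i - b j).natDegree = N)
    (hs : Squarefree ((Dif b).map (algebraMap (𝓞 A) A))) (η : ℝ) (hη : 0 < η) :
    ∃ M : Ideal (𝓞 A), M ≠ ⊥ ∧ ∀ᶠ m : ℕ in atTop, Odd (m + N) →
      (1 - η) * (Nat.card (𝓞 A ⧸ M) : ℝ) ^ m ≤
        (({E : (𝓞 A ⧸ M)[X] | E.Monic ∧ E.natDegree = m ∧ ∀ D : (𝓞 A)[X], D.Monic →
          D.map (Ideal.Quotient.mk M) = E →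
            GoodTwo N (fun i => (b i).map (algebraMap (𝓞 A) (𝓞 k)))
              (D.map (algebraMap (𝓞 A) (𝓞 k)))}).ncard : ℝ) := by
  obtain ⟨ι, hι⟩ : ∃ ι : 𝓞 A →+* 𝓞 k, ι = algebraMap (𝓞 A) (𝓞 k) := ⟨_, rfl⟩
  rw [← hι]
  have hιi : Function.Injective ι := by
    rw [hι]
    exact FaithfulSMul.algebraMap_injective _ _
  refine (transfer0 _ (nf_two (k := k) hi hN b hb hs (8 * ((Dif b).natDegree + 1)))
    {m : ℕ | Odd (m + N)} (fun p => {E : (𝓞 A ⧸ p.asIdeal)[X] | ∀ D : (𝓞 A)[X], D.Monic →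
      D.map (Ideal.Quotient.mk p.asIdeal) = E → GoodTwo N (fun i => (b i).map ι) (D.map ι)})
      (c := 1 / 16) (by norm_num) ?_ η hη).elim ?_
  · rintro P ⟨⟨h1, h2, h3, h4, h5, h6⟩, Q, e, he1, he2, he3, -⟩
    rw [← hι] at he2 he3
    haveI := P.isMaximal
    letI : Field (𝓞 A ⧸ P.asIdeal) := Ideal.Quotient.field _
    haveI := h1
    letI : Fintype (𝓞 A ⧸ P.asIdeal) := Fintype.ofFinite _
    have hlead : ∀ i' j, i' ≠ j → Ideal.Quotient.mk P.asIdeal (b i' - b j).leadingCoeff ≠ 0 := by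
      intro i' j hij
      rw [Ne, Ideal.Quotient.eq_zero_iff_mem]
      exact h5 i' j hij
    have htwo : (2 : 𝓞 A ⧸ P.asIdeal) ≠ 0 := by
      have h7 : Ideal.Quotient.mk P.asIdeal (2 : 𝓞 A) ≠ 0 := by
        rw [Ne, Ideal.Quotient.eq_zero_iff_mem]
        exact h3
      have h8 : Ideal.Quotient.mk P.asIdeal (2 : 𝓞 A) = 2 := map_ofNat _ 2
      rw [h8] at h7
      exact h7
    have hdeg : ∀ i' j, i' ≠ j → ((b i').map (Ideal.Quotient.mk P.asIdeal) -
        (b j).map (Ideal.Quotient.mk P.asIdeal)).natDegree = N := by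
      intro i' j hij
      rw [← Polynomial.map_sub, natDegree_map_of_leadingCoeff_ne_zero _ (hlead i' j hij)]
      exact hb i' j hij
    have hsqf : Squarefree (Dif (fun i => (b i).map (Ideal.Quotient.mk P.asIdeal))) := by
      rw [← dif_map]
      exact h6
    have hq : 8 * ((Dif b).natDegree + 1) ≤ Fintype.card (𝓞 A ⧸ P.asIdeal) := by
      rw [← Nat.card_eq_fintype_card]
      exact h2
    have hne : ∀ i j, i ≠ j → (b i).map (Ideal.Quotient.mk P.asIdeal) ≠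
        (b j).map (Ideal.Quotient.mk P.asIdeal) := by
      intro i j hij h
      have := hdeg i j hij
      rw [h, sub_self, natDegree_zero] at this
      omega
    have hq2 : 8 * ((Dif (fun i => (b i).map (Ideal.Quotient.mk P.asIdeal))).natDegree + 1) ≤
        Fintype.card (𝓞 A ⧸ P.asIdeal) := by
      refine le_trans ?_ hq
      have : (Dif (fun i => (b i).map (Ideal.Quotient.mk P.asIdeal))).natDegree ≤
          (Dif b).natDegree := by
        rw [← dif_map]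
        exact natDegree_map_le
      omega
    have hmap : ∀ p : (𝓞 A)[X], (p.map ι).map (e.comp (Ideal.Quotient.mk Q.asIdeal)) =
        p.map (Ideal.Quotient.mk P.asIdeal) := by
      intro p
      rw [Polynomial.map_map]
      congr 1
      ext x
      simp only [RingHom.comp_apply]
      exact he2 x
    have hbr : (fun j => ((b j).map ι).map (e.comp (Ideal.Quotient.mk Q.asIdeal))) =
        fun j => (b j).map (Ideal.Quotient.mk P.asIdeal) := by
      funext j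
      exact hmap (b j)
    have hred' : RedTwo N (fun j => (b j).map ι) (e.comp (Ideal.Quotient.mk Q.asIdeal)) := by
      refine ⟨he1.comp Ideal.Quotient.mk_surjective, htwo, h4, ?_, ?_⟩
      · intro i' j hij
        rw [hmap, hmap]
        exact hdeg i' j hij
      · rw [hbr]
        exact hsqf
    obtain ⟨-, key⟩ := Pool.Agent.Y164.HG.final htwo h4 (RatFunc (𝓞 A ⧸ P.asIdeal)) hn hn3 N hN
      (fun i => (b i).map (Ideal.Quotient.mk P.asIdeal)) hdeg hsqf
    filter_upwards [key (1 / 24) (by norm_num)] with m hm hodd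
    have h7 := hm hodd
    have h8 := Pool.Agent.Y785.NZ.Uni.t (𝓞 A ⧸ P.asIdeal) n _ hne hq2 m
    rw [← Nat.card_eq_fintype_card] at h8
    have h9 : (Nat.card (𝓞 A ⧸ P.asIdeal) : ℝ) ^ m ≤
        2 * ((tw (fun i => (b i).map (Ideal.Quotient.mk P.asIdeal)) m).ncard : ℝ) := by
      exact_mod_cast h8
    refine le_trans (by linarith) (h7.trans ?_)
    norm_cast
    apply Set.ncard_le_ncard
    · rintro E ⟨hE, hE2⟩
      refine ⟨hE.1, hE.2.1, fun D hD hDE => ⟨𝓞 A ⧸ P.asIdeal, inferInstance,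
        inferInstance, e.comp (Ideal.Quotient.mk Q.asIdeal), hred', ?_, ?_⟩⟩
      · rw [hbr, hmap, hDE]
        have h9 : (D.map ι).natDegree = m := by
          rw [hD.natDegree_map, ← hE.2.1, ← hDE, hD.natDegree_map]
        rw [h9]
        exact hE
      · rw [hbr, hmap, hDE]
        exact hE2
    · obtain ⟨-, hfin⟩ := Pool.Agent.Y188.NZ.card_monic (𝓞 A ⧸ P.asIdeal) m
      have h6 : ({p : (𝓞 A ⧸ P.asIdeal)[X] | p.Monic ∧ p.natDegree = m}).Finite := hfin
      exact h6.subset fun E hE => ⟨hE.1, hE.2.1⟩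
  · rintro M ⟨hM, h⟩
    refine ⟨M, hM, ?_⟩
    filter_upwards [h] with m hm hodd
    refine (hm hodd).trans ?_
    norm_cast
    apply Set.ncard_le_ncard
    · rintro E ⟨hE1, hE2, p, -, -, hE3⟩
      exact ⟨hE1, hE2, fun D hD hDE => hE3 D hDE D hD rfl⟩
    · haveI : Finite (𝓞 A ⧸ M) := Ideal.finiteQuotientOfFreeOfNeBot _ hM
      rcases subsingleton_or_nontrivial (𝓞 A ⧸ M) with hsub | hnt
      · exact Set.toFinite _
      · obtain ⟨-, hfin⟩ := Pool.Agent.Y188.NZ.card_monic (𝓞 A ⧸ M) m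
        have h6 : ({p : (𝓞 A ⧸ M)[X] | p.Monic ∧ p.natDegree = m}).Finite := hfin
        exact h6.subset fun E hE => ⟨hE.1, hE.2.1⟩

end

end Pool.Agent.Y164.NZ
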